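import Pool.Agent.Work.MP_6c38a7_ag.N.FieldAdd

/-!
# Cell MN, exponents larger than 2/3: the blow up of the origin, ideals and ranks
-/

namespace Pool.Agent.MNJ

open MvPolynomial

universe u

section

variable {k k' : Type u} [Field k] [Field k'] [Algebra k k'] (j₀ : Fin 3) (lam : Fin 3 → k')

theorem bl_X (j : Fin 3) : bl (k := k) j₀ lam (X j) =
    if j = j₀ then X j₀ else X j₀ * (X j + C (lam j)) := by rw [bl, aeval_X]

theorem bl_dvd {μ : ℕ} {P : MvPolynomial (Fin 3) k}
    (hP : P ∈ (Ideal.span (Set.range X) : Ideal (MvPolynomial (Fin 3) k)) ^ μ) :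
    ∃ Q, bl j₀ lam P = X j₀ ^ μ * Q := by
  have h1 : (Ideal.span (Set.range X) : Ideal (MvPolynomial (Fin 3) k)).map (bl (k := k) j₀ lam) ≤
      Ideal.span {X j₀} := by
    rw [Ideal.map_span, Ideal.span_le]
    rintro _ ⟨_, ⟨j, rfl⟩, rfl⟩
    rw [SetLike.mem_coe, Ideal.mem_span_singleton, bl_X]
    split_ifs
    · exact dvd_rfl
    · exact dvd_mul_right _ _
  have h2 : bl j₀ lam P ∈ (Ideal.span {X j₀} : Ideal (MvPolynomial (Fin 3) k')) ^ μ := by
    refine Ideal.pow_right_mono h1 μ ?_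
    rw [← Ideal.map_pow]
    exact Ideal.mem_map_of_mem _ hP
  rw [Ideal.span_singleton_pow, Ideal.mem_span_singleton] at h2
  exact h2

variable {K : Type u} [Field K] [Algebra k K] [Algebra k' K] [IsScalarTower k k' K]

theorem aeval_dn (δ : Fin 3 → PowerSeries K) (P : MvPolynomial (Fin 3) k) :
    (aeval (dn j₀ lam δ) P : PowerSeries K) = aeval δ (bl j₀ lam P) := by
  induction P using MvPolynomial.induction_on with
  | C a =>
    have e1 : bl j₀ lam (C a) = C (algebraMap k k' a) := by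
      rw [algHom_C]; rfl
    rw [e1, algHom_C, algHom_C, PowerSeries.algebraMap_apply, PowerSeries.algebraMap_apply,
      ← IsScalarTower.algebraMap_apply]
  | add p q hp hq => rw [map_add, map_add, map_add, hp, hq]
  | mul_X p i hp =>
    rw [map_mul, map_mul (bl j₀ lam), map_mul (aeval δ), hp, aeval_X, bl_X]
    congr 1
    unfold dn
    split_ifs with h
    · rw [aeval_X]
    · rw [map_mul, map_add, aeval_X, aeval_X, algHom_C, PowerSeries.algebraMap_apply]

theorem contact_down {I : Ideal (MvPolynomial (Fin 3) k)} {μ m g : ℕ} (δ : Fin 3 → PowerSeries K)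
    (hg : (δ j₀).order = g) (hI : ∀ f ∈ I, (m : ℕ∞) ≤ (aeval (dn j₀ lam δ) f : PowerSeries K).order) :
    ∀ Q ∈ blI j₀ lam I μ, ((m - g * μ : ℕ) : ℕ∞) ≤ (aeval δ Q : PowerSeries K).order := by
  intro Q hQ
  rw [← X_pow_dvd_iff_le]
  have h1 : blI j₀ lam I μ ≤ (Ideal.span {(PowerSeries.X : PowerSeries K) ^ (m - g * μ)}).comap
      (aeval δ : MvPolynomial (Fin 3) k' →ₐ[k'] PowerSeries K) := by
    rw [blI, Ideal.span_le]
    rintro R ⟨P, hP, hR⟩
    rw [SetLike.mem_coe, Ideal.mem_comap, Ideal.mem_span_singleton, X_pow_dvd_iff_le]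
    have h2 := hI P hP
    rw [aeval_dn, hR, map_mul, map_pow, aeval_X, PowerSeries.order_mul, PowerSeries.order_pow, hg,
      nsmul_eq_mul] at h2
    have h3 : ((m - g * μ : ℕ) : ℕ∞) = (m : ℕ∞) - ((μ : ℕ∞) * (g : ℕ∞)) := by
      rw [ENat.natCast_sub, Nat.cast_mul, mul_comm]
    rw [h3]
    exact tsub_le_iff_left.2 h2
  have h2 := h1 hQ
  rwa [Ideal.mem_comap, Ideal.mem_span_singleton] at h2

theorem contact_up {I : Ideal (MvPolynomial (Fin 3) k)} {μ m g : ℕ} (δ : Fin 3 → PowerSeries K)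
    (hg : (g : ℕ∞) ≤ (δ j₀).order)
    (hI : I ≤ (Ideal.span (Set.range X) : Ideal (MvPolynomial (Fin 3) k)) ^ μ)
    (hQ : ∀ Q ∈ blI j₀ lam I μ, (m : ℕ∞) ≤ (aeval δ Q : PowerSeries K).order) :
    ∀ f ∈ I, ((m + g * μ : ℕ) : ℕ∞) ≤ (aeval (dn j₀ lam δ) f : PowerSeries K).order := by
  intro f hf
  obtain ⟨Q, hfQ⟩ := bl_dvd j₀ lam (hI hf)
  have h1 := hQ Q (Ideal.subset_span ⟨f, hf, hfQ⟩)
  rw [aeval_dn, hfQ, map_mul, map_pow, aeval_X, PowerSeries.order_mul, PowerSeries.order_pow]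
  calc ((m + g * μ : ℕ) : ℕ∞) = μ • (g : ℕ∞) + m := by
        rw [nsmul_eq_mul]; push_cast; ring
    _ ≤ _ := by gcongr

/-- the coefficients of the image of an arc -/
theorem rk_dn_le (δ : Fin 3 → PowerSeries K) (n g : ℕ) (hgn : g ≤ n) (hg : (g : ℕ∞) ≤ (δ j₀).order) :
    rk k (cs n (dn j₀ lam δ)) ≤
      rk k (Set.range (fun j => algebraMap k' K (lam j)) ∪ cs (n - g) δ) + (g : ℕ∞) := by
  classical
  set Λ : Set K := Set.range (fun j => algebraMap k' K (lam j)) with hΛ
  set T : Set K := (((Finset.Icc (n - g + 1) n).image (fun j => PowerSeries.coeff j (δ j₀)) :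
    Finset K) : Set K) with hT
  have hTc : T.encard ≤ (g : ℕ∞) := by
    rw [hT, Set.encard_coe_eq_coe_finsetCard]
    have := Finset.card_image_le (s := Finset.Icc (n - g + 1) n)
      (f := fun j => PowerSeries.coeff j (δ j₀))
    rw [Nat.card_Icc] at this
    exact_mod_cast this.trans (by omega)
  set L := IntermediateField.adjoin k ((Λ ∪ cs (n - g) δ) ∪ T) with hL
  have hsub : ((Λ ∪ cs (n - g) δ) ∪ T) ⊆ L := IntermediateField.subset_adjoin k _
  have hlam : ∀ j, algebraMap k' K (lam j) ∈ L := fun j => hsub (Or.inl (Or.inl ⟨j, rfl⟩))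
  have hlow : ∀ i, ∀ j ≤ n - g, PowerSeries.coeff j (δ i) ∈ L := fun i j hj =>
    hsub (Or.inl (Or.inr ⟨i, j, hj, rfl⟩))
  have hj0 : ∀ j ≤ n, PowerSeries.coeff j (δ j₀) ∈ L := by
    intro j hj
    rcases Nat.lt_or_ge (n - g) j with h | h
    · refine hsub (Or.inr ?_)
      rw [hT, Finset.mem_coe, Finset.mem_image]
      exact ⟨j, Finset.mem_Icc.2 ⟨h, hj⟩, rfl⟩
    · exact hlow _ j h
  have key : ∀ i, ∀ l ≤ n, PowerSeries.coeff l (dn j₀ lam δ i) ∈ L := by
    intro i l hl
    unfold dn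
    split_ifs with h
    · exact hj0 l hl
    · rw [PowerSeries.coeff_mul]
      refine sum_mem fun x hx => ?_
      have hx' := Finset.HasAntidiagonal.mem_antidiagonal.1 hx
      rcases Nat.lt_or_ge x.1 g with h2 | h2
      · rw [PowerSeries.coeff_of_lt_order x.1 (lt_of_lt_of_le (by exact_mod_cast h2) hg), zero_mul]
        exact L.zero_mem
      · refine L.mul_mem (hj0 _ (by omega)) ?_
        rw [map_add, PowerSeries.coeff_C]
        refine L.add_mem (hlow _ _ (by omega)) ?_
        split_ifs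
        · exact hlam i
        · exact L.zero_mem
  have h1 : rk k (cs n (dn j₀ lam δ)) ≤ rk k ((Λ ∪ cs (n - g) δ) ∪ T) := by
    refine rk_le_of_alg ?_
    rintro _ ⟨i, l, hl, rfl⟩
    exact isAlgebraic_algebraMap (⟨_, key i l hl⟩ : L)
  exact h1.trans ((rk_union_le _ _).trans (by gcongr))

/-- the coefficients of the arc from those of its image -/
theorem le_rk_dn (δ : Fin 3 → PowerSeries K) (N g : ℕ) (hgN : g ≤ N) (hg : (δ j₀).order = g)
    (h0 : ∀ i, PowerSeries.constantCoeff (δ i) = 0) (hlam0 : lam j₀ = 0) :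
    rk k (Set.range (fun j => algebraMap k' K (lam j)) ∪
      {c | ∃ i, ∃ j, c = PowerSeries.coeff j (δ i) ∧ j ≤ N ∧ (i = j₀ ∨ j ≤ N - g)}) ≤
      rk k (cs N (dn j₀ lam δ)) := by
  classical
  set L := IntermediateField.adjoin k (cs N (dn j₀ lam δ)) with hL
  have hsub : cs N (dn j₀ lam δ) ⊆ L := IntermediateField.subset_adjoin k _
  have hj0 : ∀ j ≤ N, PowerSeries.coeff j (δ j₀) ∈ L := by
    intro j hj
    refine hsub ⟨j₀, j, hj, ?_⟩
    rw [dn, if_pos rfl]
  have hne : δ j₀ ≠ 0 := by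
    intro h; rw [h, PowerSeries.order_zero] at hg; exact absurd hg (ENat.top_ne_natCast _)
  have hlead : PowerSeries.coeff g (δ j₀) ≠ 0 := by
    have := PowerSeries.coeff_order hne
    rwa [hg, ENat.toNat_natCast] at this
  have hq : ∀ i, i ≠ j₀ → ∀ b ≤ N - g,
      PowerSeries.coeff b (δ i + PowerSeries.C (algebraMap k' K (lam i))) ∈ L := by
    intro i hi b
    induction b using Nat.strong_induction_on with
    | _ b ih =>
      intro hb
      have h1 : PowerSeries.coeff (g + b) (dn j₀ lam δ i) ∈ L := hsub ⟨i, g + b, by omega, rfl⟩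
      rw [dn, if_neg hi, PowerSeries.coeff_mul] at h1
      have hmem : (g, b) ∈ Finset.HasAntidiagonal.antidiagonal (g + b) :=
        Finset.HasAntidiagonal.mem_antidiagonal.2 rfl
      rw [← Finset.add_sum_erase _ _ hmem] at h1
      have h2 : ∑ x ∈ (Finset.HasAntidiagonal.antidiagonal (g + b)).erase (g, b), PowerSeries.coeff x.1 (δ j₀) *
          PowerSeries.coeff x.2 (δ i + PowerSeries.C (algebraMap k' K (lam i))) ∈ L := by
        refine sum_mem fun x hx => ?_
        have hx1 := Finset.ne_of_mem_erase hx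
        have hx2 := Finset.HasAntidiagonal.mem_antidiagonal.1 (Finset.mem_of_mem_erase hx)
        rcases Nat.lt_or_ge x.1 g with h3 | h3
        · rw [PowerSeries.coeff_of_lt_order x.1 (by rw [hg]; exact_mod_cast h3), zero_mul]
          exact L.zero_mem
        · have h4 : x.2 < b := by
            rcases Nat.lt_or_ge x.2 b with h5 | h5
            · exact h5
            · exfalso
              apply hx1
              have e1 : x.1 = g := by omega
              have e2 : x.2 = b := by omega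
              rw [← e1, ← e2]
          exact L.mul_mem (hj0 _ (by omega)) (ih _ h4 (by omega))
      have h3 := L.sub_mem h1 h2
      rw [add_sub_cancel_right] at h3
      have h4 := L.mul_mem (L.inv_mem (hj0 g hgN)) h3
      rwa [← mul_assoc, inv_mul_cancel₀ hlead, one_mul] at h4
  have hlam : ∀ j, algebraMap k' K (lam j) ∈ L := by
    intro j
    by_cases hj : j = j₀
    · rw [hj, hlam0, map_zero]; exact L.zero_mem
    · have h1 := hq j hj 0 (Nat.zero_le _)
      rw [map_add, PowerSeries.coeff_zero_C, PowerSeries.coeff_zero_eq_constantCoeff_apply, h0 j,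
        zero_add] at h1
      exact h1
  have key : ∀ i j, j ≤ N → (i = j₀ ∨ j ≤ N - g) → PowerSeries.coeff j (δ i) ∈ L := by
    intro i j hjN hij
    by_cases hi : i = j₀
    · rw [hi]; exact hj0 j hjN
    · have hj := hij.resolve_left hi
      have h1 := hq i hi j hj
      rw [map_add, PowerSeries.coeff_C] at h1
      by_cases hj' : j = 0
      · rw [hj', PowerSeries.coeff_zero_eq_constantCoeff_apply, h0 i]; exact L.zero_mem
      · rwa [if_neg hj', add_zero] at h1
  refine rk_le_of_alg ?_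
  rintro _ (⟨j, rfl⟩ | ⟨i, j, rfl, hjN, hij⟩)
  · exact isAlgebraic_algebraMap (⟨_, hlam j⟩ : L)
  · exact isAlgebraic_algebraMap (⟨_, key i j hjN hij⟩ : L)

theorem rk_cs_le_split (δ : Fin 3 → PowerSeries K) (N g : ℕ) (hgN : g ≤ N) :
    rk k' (cs N δ) ≤ rk k' {c | ∃ i, ∃ j, c = PowerSeries.coeff j (δ i) ∧ j ≤ N ∧ (i = j₀ ∨ j ≤ N - g)} +
      ((2 * g : ℕ) : ℕ∞) := by
  classical
  set S : Set K := {c | ∃ i, ∃ j, c = PowerSeries.coeff j (δ i) ∧ j ≤ N ∧ (i = j₀ ∨ j ≤ N - g)} with hS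
  set T : Set K := ((((Finset.univ.erase j₀) ×ˢ Finset.Icc (N - g + 1) N).image
    (fun x : Fin 3 × ℕ => PowerSeries.coeff x.2 (δ x.1)) : Finset K) : Set K) with hT
  have hTc : T.encard ≤ ((2 * g : ℕ) : ℕ∞) := by
    rw [hT, Set.encard_coe_eq_coe_finsetCard]
    have h1 := Finset.card_image_le (s := (Finset.univ.erase j₀) ×ˢ Finset.Icc (N - g + 1) N)
      (f := fun x : Fin 3 × ℕ => PowerSeries.coeff x.2 (δ x.1))
    rw [Finset.card_product, Finset.card_erase_of_mem (Finset.mem_univ _), Finset.card_univ,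
      Fintype.card_fin, Nat.card_Icc] at h1
    have h2 : (3 - 1) * (N + 1 - (N - g + 1)) ≤ 2 * g := by
      have : N + 1 - (N - g + 1) = g := by omega
      rw [this]
    exact_mod_cast h1.trans h2
  have hsub : cs N δ ⊆ S ∪ T := by
    rintro _ ⟨i, j, hj, rfl⟩
    by_cases h : i = j₀ ∨ j ≤ N - g
    · exact Or.inl ⟨i, j, rfl, hj, h⟩
    · push Not at h
      right
      rw [hT, Finset.mem_coe, Finset.mem_image]
      exact ⟨(i, j), Finset.mem_product.2 ⟨Finset.mem_erase.2 ⟨h.1, Finset.mem_univ _⟩,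
        Finset.mem_Icc.2 ⟨by omega, hj⟩⟩, rfl⟩
  exact (rk_mono hsub).trans ((rk_union_le _ _).trans (by gcongr))

end

end Pool.Agent.MNJ
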