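import Pool.Agent.Work.MP_6c38a7_ag.Defs2
import Pool.Agent.Work.MP_6c38a7_ag.Jet

/-!
# Cell MN, exponents larger than 2/3: notions for the induction on infinitely near points

A node: a multiideal `𝔞_1^{e_1} ⋯ 𝔞_s^{e_s}` together with the coordinate hyperplanes `X_j = 0`, `j ∈ B`, with
exponents `c_j`.
-/

namespace Pool.Agent.MNJ

open MvPolynomial

universe u

/-- there is an arc with contact orders `≥ m_i` with `𝔞_i`, `≥ ν_j` with `X_j = 0` for `j ∈ B`, and of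
codimension `≤ q` at level `n` -/
def HasArc (k : Type u) [Field k] {s : ℕ} (a : Fin s → Ideal (MvPolynomial (Fin 3) k)) (B : Finset (Fin 3))
    (m : Fin s → ℕ) (ν : Fin 3 → ℕ) (n q : ℕ) : Prop :=
  ∃ (K : Type u) (_ : Field K) (_ : Algebra k K) (γ : Fin 3 → PowerSeries K),
    Contact a m γ ∧ (∀ j ∈ B, (ν j : ℕ∞) ≤ (γ j).order) ∧
    ((3 * (n + 1) : ℕ) : ℕ∞) ≤ rk k (cs n γ) + (q : ℕ∞)

/-- the level `n` is high enough -/
def Lev {s : ℕ} (B : Finset (Fin 3)) (m : Fin s → ℕ) (ν : Fin 3 → ℕ) (n : ℕ) : Prop :=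
  (∀ i, m i ≤ n + 1) ∧ ∀ j ∈ B, ν j ≤ n + 1

/-- the value `codimension - ∑ e_i m_i - ∑_{j ∈ B} c_j ν_j` -/
noncomputable def vl {s : ℕ} (e : Fin s → ℝ) (c : Fin 3 → ℝ) (B : Finset (Fin 3)) (m : Fin s → ℕ)
    (ν : Fin 3 → ℕ) (q : ℕ) : ℝ := (q : ℝ) - ∑ i, e i * (m i : ℝ) - ∑ j ∈ B, c j * (ν j : ℝ)

/-- the coordinate hyperplanes in `B` -/
noncomputable def bd (k : Type u) [Field k] (B : Finset (Fin 3)) (j : Fin 3) :
    Ideal (MvPolynomial (Fin 3) k) := if j ∈ B then Ideal.span {X j} else ⊤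

/-- the order of `I` at the origin is at most `r` -/
def OrdLe {k : Type u} [Field k] (I : Ideal (MvPolynomial (Fin 3) k)) (r : ℕ) : Prop :=
  ¬ I ≤ (Ideal.span (Set.range X)) ^ (r + 1)

/-- the numerical hypothesis: for all `μ` with `𝔞_i ⊆ (X₁, X₂, X₃) ^ μ_i`, either `∑ e_i μ_i > 2` or
`∑ e_i μ_i ≤ 1 + ∑_{i ∈ T} e_i` for a set `T` of indices with `μ_i ≠ 0` in `k` -/
def Hyp (k : Type u) [Field k] {s : ℕ} (e : Fin s → ℝ) (a : Fin s → Ideal (MvPolynomial (Fin 3) k)) :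
    Prop :=
  ∀ μ : Fin s → ℕ, (∀ i, a i ≤ (Ideal.span (Set.range X)) ^ μ i) →
    2 < ∑ i, e i * (μ i : ℝ) ∨
    ∃ T : Finset (Fin s), (∀ i ∈ T, ((μ i : ℕ) : k) ≠ 0) ∧ ∑ i, e i * (μ i : ℝ) ≤ 1 + ∑ i ∈ T, e i

/-- every arc is dominated by one of bounded contact orders and level -/
def Node {s : ℕ} (e : Fin s → ℝ) (c : Fin 3 → ℝ) (B : Finset (Fin 3)) (ℓ : ℕ) : Prop :=
  ∀ (k : Type u) [Field k] [IsAlgClosed k] (a : Fin s → Ideal (MvPolynomial (Fin 3) k)), Hyp k e a →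
    ∀ (m : Fin s → ℕ) (ν : Fin 3 → ℕ) (n q : ℕ),
      Lev B m ν n → HasArc k a B m ν n q →
      ∃ (m' : Fin s → ℕ) (ν' : Fin 3 → ℕ) (n' q' : ℕ), Lev B m' ν' n' ∧ HasArc k a B m' ν' n' q' ∧
        n' ≤ ℓ ∧ (vl e c B m' ν' q' < 0 ∨ vl e c B m' ν' q' ≤ vl e c B m ν q)

/-- blowing up the origin, in the chart of the coordinate `j₀`, with centre `λ` of the new coordinates -/
noncomputable def bl {k k' : Type u} [Field k] [Field k'] [Algebra k k'] (j₀ : Fin 3) (lam : Fin 3 → k') :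
    MvPolynomial (Fin 3) k →ₐ[k] MvPolynomial (Fin 3) k' :=
  aeval (fun j => if j = j₀ then X j₀ else X j₀ * (X j + C (lam j)))

/-- the transform of an ideal of order `μ` -/
noncomputable def blI {k k' : Type u} [Field k] [Field k'] [Algebra k k'] (j₀ : Fin 3) (lam : Fin 3 → k')
    (I : Ideal (MvPolynomial (Fin 3) k)) (μ : ℕ) : Ideal (MvPolynomial (Fin 3) k') :=
  Ideal.span {Q | ∃ P ∈ I, bl j₀ lam P = X j₀ ^ μ * Q}

/-- the components of the boundary through the new centre -/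
def blB {k' : Type u} [Field k'] [DecidableEq k'] (j₀ : Fin 3) (lam : Fin 3 → k') (B : Finset (Fin 3)) :
    Finset (Fin 3) := insert j₀ (B.filter fun j => j ≠ j₀ ∧ lam j = 0)

/-- the arc below an arc of the blow up -/
noncomputable def dn {k' K : Type*} [Field k'] [Field K] [Algebra k' K] (j₀ : Fin 3) (lam : Fin 3 → k')
    (δ : Fin 3 → PowerSeries K) (j : Fin 3) : PowerSeries K :=
  if j = j₀ then δ j₀ else δ j₀ * (δ j + PowerSeries.C (algebraMap k' K (lam j)))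

end Pool.Agent.MNJ
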