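import Pool.Agent.Work.MP_6c38a7_ag.N.Defs

/-!
# MN3, module Extend: raising the level of an arc; conversions between arcs and `sVal`
-/

namespace Pool.Agent.MNJ

open MvPolynomial

universe u

namespace ExtendAux

theorem exists_generic (k : Type u) [Field k] (K : Type u) [Field K] [Algebra k K] (ι : Type) :
    ∃ (K' : Type u) (_ : Field K') (_ : Algebra k K') (_ : Algebra K K')
      (_ : IsScalarTower k K K') (y : ι → K'), AlgebraicIndependent K y := by
  refine ⟨FractionRing (MvPolynomial ι K), inferInstance, inferInstance, inferInstance,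
    inferInstance, fun i => algebraMap (MvPolynomial ι K) _ (X i), ?_⟩
  have h := (MvPolynomial.algebraicIndependent_X ι K).map'
    (f := IsScalarTower.toAlgHom K (MvPolynomial ι K) (FractionRing (MvPolynomial ι K)))
    (IsFractionRing.injective (MvPolynomial ι K) _)
  exact h

theorem aeval_map_series {k : Type*} [Field k] {K : Type*} [Field K] [Algebra k K] {K' : Type*}
    [Field K'] [Algebra k K'] [Algebra K K'] [IsScalarTower k K K'] {N : ℕ}
    (γ : Fin N → PowerSeries K) (f : MvPolynomial (Fin N) k) :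
    (aeval (fun i => PowerSeries.map (algebraMap K K') (γ i)) f : PowerSeries K') =
      PowerSeries.map (algebraMap K K') (aeval γ f) := by
  induction f using MvPolynomial.induction_on with
  | C b =>
    rw [algHom_C, algHom_C, PowerSeries.algebraMap_apply, PowerSeries.algebraMap_apply,
      PowerSeries.map_C, ← IsScalarTower.algebraMap_apply]
  | add p q hp hq => rw [map_add, map_add, map_add, hp, hq]
  | mul_X p i hp => rw [map_mul, map_mul, map_mul, hp, aeval_X, aeval_X]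

theorem le_order_map {K K' : Type*} [Field K] [Field K'] [Algebra K K'] {v : ℕ}
    {w : PowerSeries K} (h : (v : ℕ∞) ≤ w.order) :
    (v : ℕ∞) ≤ (PowerSeries.map (algebraMap K K') w).order := by
  refine PowerSeries.nat_le_order _ _ fun j hj => ?_
  rw [PowerSeries.coeff_map, PowerSeries.coeff_of_lt_order j (lt_of_lt_of_le (by exact_mod_cast hj) h),
    map_zero]

theorem rk_ne_top {k : Type*} [Field k] {K : Type*} [Field K] [Algebra k K] {N : ℕ} (n : ℕ)
    (γ : Fin N → PowerSeries K) : rk k (cs n γ) ≤ ((N * (n + 1) : ℕ) : ℕ∞) := by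
  refine (rk_le_encard9 _).trans ?_
  have h : cs n γ = Set.range fun p : Fin N × Fin (n + 1) => PowerSeries.coeff (p.2 : ℕ) (γ p.1) := by
    ext c
    constructor
    · rintro ⟨i, j, hj, rfl⟩
      exact ⟨(i, ⟨j, Nat.lt_succ_of_le hj⟩), rfl⟩
    · rintro ⟨⟨i, j⟩, rfl⟩
      exact ⟨i, j, Nat.le_of_lt_succ j.2, rfl⟩
  rw [h, ← Set.image_univ]
  refine (Set.encard_image_le _ _).trans ?_
  rw [Set.encard_univ, ENat.card_eq_coe_fintype_card]
  simp

end ExtendAux

open ExtendAux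

/-- raising the level: the new coefficients are taken algebraically independent -/
theorem exists_extend {k : Type u} [Field k] {s : ℕ} {a : Fin s → Ideal (MvPolynomial (Fin 3) k)}
    {B : Finset (Fin 3)} {m : Fin s → ℕ} {ν : Fin 3 → ℕ} {n : ℕ} {K : Type u} [Field K] [Algebra k K]
    (γ : Fin 3 → PowerSeries K) (hγ : Contact a m γ) (hν : ∀ j ∈ B, (ν j : ℕ∞) ≤ (γ j).order)
    (hL : Lev B m ν n) (N : ℕ) (hN : n ≤ N) :
    ∃ (K' : Type u) (_ : Field K') (_ : Algebra k K') (γ' : Fin 3 → PowerSeries K'),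
      Contact a m γ' ∧ (∀ j ∈ B, (ν j : ℕ∞) ≤ (γ' j).order) ∧
      rk k (cs n γ) + ((3 * (N - n) : ℕ) : ℕ∞) ≤ rk k (cs N γ') ∧
      (n < N → ∀ j, PowerSeries.coeff (n + 1) (γ' j) ≠ 0) := by
  classical
  obtain ⟨K', hK', hkK', hKK', htow, y, hy⟩ := exists_generic k K (Fin 3 × Fin (N - n))
  let γ' : Fin 3 → PowerSeries K' := fun i => PowerSeries.mk fun j =>
    if j ≤ n then algebraMap K K' (PowerSeries.coeff j (γ i)) else
      if h : j - (n + 1) < N - n then y (i, ⟨j - (n + 1), h⟩) else 0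
  have hlow : ∀ i, ∀ j ≤ n, PowerSeries.coeff j (PowerSeries.map (algebraMap K K') (γ i)) =
      PowerSeries.coeff j (γ' i) := by
    intro i j hj
    simp only [γ', PowerSeries.coeff_mk, PowerSeries.coeff_map, if_pos hj]
  have hhigh : ∀ i, ∀ l (h : l < N - n), PowerSeries.coeff (n + 1 + l) (γ' i) = y (i, ⟨l, h⟩) := by
    intro i l h
    have h1 : ¬ n + 1 + l ≤ n := by omega
    have h2 : n + 1 + l - (n + 1) = l := by omega
    simp only [γ', PowerSeries.coeff_mk, if_neg h1, h2, dif_pos h]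
  refine ⟨K', hK', hkK', γ', ⟨fun i => ?_, fun i f hf => ?_⟩, fun j hj => ?_, ?_, fun hn j => ?_⟩
  · rw [← PowerSeries.coeff_zero_eq_constantCoeff_apply, ← hlow i 0 (Nat.zero_le _),
      PowerSeries.coeff_map, PowerSeries.coeff_zero_eq_constantCoeff_apply, hγ.1 i, map_zero]
  · refine le_order_congr (n := n) (hL.1 i) (coeff_aeval_congr _ _ n hlow f) ?_
    rw [aeval_map_series]
    exact le_order_map (hγ.2 i f hf)
  · exact le_order_congr (n := n) (hL.2 j hj) (hlow j) (le_order_map (hν j hj))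
  · have hfin : rk k (cs n γ) ≠ ⊤ := ne_top_of_le_ne_top (ENat.natCast_ne_top _) (rk_ne_top n γ)
    obtain ⟨r, hr⟩ := ENat.ne_top_iff_exists.1 hfin
    obtain ⟨T, hT, hTS⟩ := exists_indep_of_le_rk (cs n γ) r hr.le
    have hsum := hT.sumElim_comp hy
    have h1 := card_le_rk _ hsum (cs N γ') (by
      rintro (p | i)
      · rw [Sum.elim_inl]
        exact ⟨p.1, n + 1 + (p.2 : ℕ), by have := p.2.2; omega, (hhigh p.1 _ p.2.2).symm⟩
      · rw [Sum.elim_inr]
        obtain ⟨i', j, hj, hT'⟩ := hTS i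
        refine ⟨i', j, hj.trans hN, ?_⟩
        rw [← hlow i' j hj, PowerSeries.coeff_map, ← hT']
        rfl)
    refine le_trans (le_of_eq ?_) h1
    rw [← hr]
    have h2 : Nat.card (Fin 3 × Fin (N - n) ⊕ Fin r) = r + 3 * (N - n) := by
      rw [Nat.card_eq_fintype_card]
      simp
      omega
    rw [h2]
    push_cast
    rfl
  · have h := hhigh j 0 (by omega)
    rw [Nat.add_zero] at h
    rw [h]
    exact hy.ne_zero _

/-- the contact conditions with the boundary ideals -/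
theorem contact_append {k : Type u} [Field k] {s : ℕ} {a : Fin s → Ideal (MvPolynomial (Fin 3) k)}
    {B : Finset (Fin 3)} {m : Fin s → ℕ} {ν : Fin 3 → ℕ} {K : Type u} [Field K] [Algebra k K]
    {γ : Fin 3 → PowerSeries K} (hγ : Contact a m γ) (hν : ∀ j ∈ B, (ν j : ℕ∞) ≤ (γ j).order) :
    Contact (Fin.append a (bd k B)) (Fin.append m (fun j => if j ∈ B then ν j else 0)) γ := by
  refine ⟨hγ.1, fun i => ?_⟩
  refine Fin.addCases (fun i => ?_) (fun j => ?_) i
  · rw [Fin.append_left, Fin.append_left]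
    exact hγ.2 i
  · rw [Fin.append_right, Fin.append_right]
    intro f hf
    by_cases hj : j ∈ B
    · rw [if_pos hj]
      rw [bd, if_pos hj, Ideal.mem_span_singleton] at hf
      obtain ⟨g, rfl⟩ := hf
      rw [map_mul, aeval_X]
      refine (hν j hj).trans ?_
      refine le_trans ?_ (PowerSeries.le_order_mul _ _)
      exact le_self_add
    · rw [if_neg hj]
      simp

theorem contact_of_append {k : Type u} [Field k] {s : ℕ} {a : Fin s → Ideal (MvPolynomial (Fin 3) k)}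
    {B : Finset (Fin 3)} {M : Fin (s + 3) → ℕ} {K : Type u} [Field K] [Algebra k K]
    {γ : Fin 3 → PowerSeries K} (h : Contact (Fin.append a (bd k B)) M γ) :
    Contact a (fun i => M (Fin.castAdd 3 i)) γ ∧
      (∀ j ∈ B, ((M (Fin.natAdd s j) : ℕ) : ℕ∞) ≤ (γ j).order) ∧ ∀ j ∉ B, M (Fin.natAdd s j) = 0 := by
  refine ⟨⟨h.1, fun i f hf => ?_⟩, fun j hj => ?_, fun j hj => ?_⟩
  · have := h.2 (Fin.castAdd 3 i) f
    rw [Fin.append_left] at this
    exact this hf
  · have := h.2 (Fin.natAdd s j) (X j)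
    rw [Fin.append_right, bd, if_pos hj, aeval_X] at this
    exact this (Ideal.mem_span_singleton_self _)
  · have := h.2 (Fin.natAdd s j) 1
    rw [Fin.append_right, bd, if_neg hj, map_one, PowerSeries.order_one] at this
    have h1 := this Submodule.mem_top
    exact_mod_cast le_antisymm (by exact_mod_cast h1) (Nat.zero_le _)

theorem sum_append {s : ℕ} (e : Fin s → ℝ) (c : Fin 3 → ℝ) (B : Finset (Fin 3)) (M : Fin (s + 3) → ℕ)
    (hM : ∀ j ∉ B, M (Fin.natAdd s j) = 0) :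
    ∑ i, Fin.append e c i * (M i : ℝ) = ∑ i, e i * (M (Fin.castAdd 3 i) : ℝ) +
      ∑ j ∈ B, c j * (M (Fin.natAdd s j) : ℝ) := by
  rw [Fin.sum_univ_add]
  congr 1
  · exact Finset.sum_congr rfl fun i _ => by rw [Fin.append_left]
  · symm
    have : ∀ j, Fin.append e c (Fin.natAdd s j) = c j := fun j => Fin.append_right _ _ _
    simp only [this]
    refine Finset.sum_subset (Finset.subset_univ _) fun j _ hj => ?_
    rw [hM j hj]
    simp

/-- from arcs to `sVal` -/
theorem sVal_le_of_hasArc {k : Type u} [Field k] {s : ℕ} (e : Fin s → ℝ) (c : Fin 3 → ℝ)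
    {a : Fin s → Ideal (MvPolynomial (Fin 3) k)}
    {B : Finset (Fin 3)} {m : Fin s → ℕ} {ν : Fin 3 → ℕ} {n q : ℕ} (hL : Lev B m ν n)
    (h : HasArc k a B m ν n q) :
    sVal (Fin.append e c) (Fin.append a (bd k B)) (Fin.append m (fun j => if j ∈ B then ν j else 0)) ≤
      ((vl e c B m ν q : ℝ) : EReal) := by
  obtain ⟨K, hK, hkK, γ, hγ, hν, hrk⟩ := h
  set M : Fin (s + 3) → ℕ := Fin.append m (fun j => if j ∈ B then ν j else 0) with hM
  set N := max n (∑ i, M i) with hN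
  obtain ⟨K', hK', hkK', γ', hγ', hν', hrk', -⟩ := exists_extend γ hγ hν hL N (le_max_left _ _)
  have hfin : rk k (cs N γ') ≠ ⊤ := ne_top_of_le_ne_top (ENat.natCast_ne_top _) (rk_ne_top N γ')
  obtain ⟨r, hr⟩ := ENat.ne_top_iff_exists.1 hfin
  have hc := contact_append (B := B) hγ' hν'
  refine (sVal_le_of_arc (Fin.append e c) (Fin.append a (bd k B)) M γ' hc N r (le_max_right _ _)
    hr.le).trans ?_
  refine EReal.coe_le_coe_iff.2 ?_
  have h1 : ∀ j ∉ B, M (Fin.natAdd s j) = 0 := by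
    intro j hj
    rw [hM, Fin.append_right, if_neg hj]
  rw [sum_append e c B M h1]
  have h2 : ∑ i, e i * (M (Fin.castAdd 3 i) : ℝ) = ∑ i, e i * (m i : ℝ) := by
    refine Finset.sum_congr rfl fun i _ => ?_
    rw [hM, Fin.append_left]
  have h3 : ∑ j ∈ B, c j * (M (Fin.natAdd s j) : ℝ) = ∑ j ∈ B, c j * (ν j : ℝ) := by
    refine Finset.sum_congr rfl fun j hj => ?_
    rw [hM, Fin.append_right, if_pos hj]
  rw [h2, h3, vl]
  have h4 : 3 * (N + 1) ≤ r + q := by
    have h5 : ((3 * (n + 1) + 3 * (N - n) : ℕ) : ℕ∞) ≤ ((r + q : ℕ) : ℕ∞) := by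
      push_cast
      rw [hr]
      calc (3 * ((n : ℕ∞) + 1) + 3 * ((N - n : ℕ) : ℕ∞)) ≤ (rk k (cs n γ) + (q : ℕ∞)) +
            3 * ((N - n : ℕ) : ℕ∞) := by
            refine add_le_add ?_ le_rfl
            exact_mod_cast hrk
        _ = (rk k (cs n γ) + ((3 * (N - n) : ℕ) : ℕ∞)) + (q : ℕ∞) := by
            push_cast
            ring
        _ ≤ rk k (cs N γ') + (q : ℕ∞) := add_le_add hrk' le_rfl
    have h6 : 3 * (n + 1) + 3 * (N - n) ≤ r + q := by exact_mod_cast h5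
    have h7 : n ≤ N := le_max_left _ _
    omega
  have h8 : ((3 * (N + 1) : ℕ) : ℝ) ≤ r + q := by exact_mod_cast h4
  linarith

/-- from `sVal` to arcs -/
theorem hasArc_of_sVal {k : Type u} [Field k] {s : ℕ} (e : Fin s → ℝ) (c : Fin 3 → ℝ)
    (a : Fin s → Ideal (MvPolynomial (Fin 3) k)) (B : Finset (Fin 3)) (M : Fin (s + 3) → ℕ)
    (h : sVal (Fin.append e c) (Fin.append a (bd k B)) M ≠ ⊤) :
    ∃ (m : Fin s → ℕ) (ν : Fin 3 → ℕ) (q : ℕ), Lev B m ν (∑ i, M i) ∧
      HasArc k a B m ν (∑ i, M i) q ∧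
      sVal (Fin.append e c) (Fin.append a (bd k B)) M = ((vl e c B m ν q : ℝ) : EReal) := by
  obtain ⟨K, hK, hkK, γ, r, hγ, hrk, hval⟩ := exists_arc (Fin.append e c)
    (Fin.append a (bd k B)) M h
  obtain ⟨h1, h2, h3⟩ := contact_of_append hγ
  have hle : ∀ i, M i ≤ ∑ i, M i := fun i =>
    Finset.single_le_sum (f := M) (fun _ _ => Nat.zero_le _) (Finset.mem_univ i)
  have hr : r ≤ 3 * ((∑ i, M i) + 1) := by
    have := rk_ne_top (k := k) (∑ i, M i) γ
    rw [hrk] at this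
    exact_mod_cast this
  refine ⟨fun i => M (Fin.castAdd 3 i), fun j => M (Fin.natAdd s j), 3 * ((∑ i, M i) + 1) - r,
    ⟨fun i => (hle _).trans (Nat.le_succ _), fun j _ => (hle _).trans (Nat.le_succ _)⟩,
    ⟨K, hK, hkK, γ, h1, h2, ?_⟩, ?_⟩
  · rw [hrk]
    have : 3 * ((∑ i, M i) + 1) ≤ r + (3 * ((∑ i, M i) + 1) - r) := by omega
    exact_mod_cast this
  · rw [hval, sum_append e c B M h3, vl]
    congr 1
    rw [Nat.cast_sub hr]
    ring

/-- the root: no boundary -/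
theorem sVal_of_hasArc_empty {k : Type u} [Field k] {s : ℕ} (e : Fin s → ℝ) (c : Fin 3 → ℝ)
    {a : Fin s → Ideal (MvPolynomial (Fin 3) k)} {m : Fin s → ℕ} {ν : Fin 3 → ℕ} {n q : ℕ}
    (hL : Lev ∅ m ν n) (h : HasArc k a ∅ m ν n q) : sVal e a m ≤ ((vl e c ∅ m ν q : ℝ) : EReal) := by
  obtain ⟨K, hK, hkK, γ, hγ, hν, hrk⟩ := h
  set N := max n (∑ i, m i) with hN
  obtain ⟨K', hK', hkK', γ', hγ', hν', hrk', -⟩ := exists_extend γ hγ hν hL N (le_max_left _ _)
  have hfin : rk k (cs N γ') ≠ ⊤ := ne_top_of_le_ne_top (ENat.natCast_ne_top _) (rk_ne_top N γ')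
  obtain ⟨r, hr⟩ := ENat.ne_top_iff_exists.1 hfin
  refine (sVal_le_of_arc e a m γ' hγ' N r (le_max_right _ _) hr.le).trans ?_
  refine EReal.coe_le_coe_iff.2 ?_
  rw [vl, Finset.sum_empty]
  have h4 : 3 * (N + 1) ≤ r + q := by
    have h5 : ((3 * (n + 1) + 3 * (N - n) : ℕ) : ℕ∞) ≤ ((r + q : ℕ) : ℕ∞) := by
      push_cast
      rw [hr]
      calc (3 * ((n : ℕ∞) + 1) + 3 * ((N - n : ℕ) : ℕ∞)) ≤ (rk k (cs n γ) + (q : ℕ∞)) +
            3 * ((N - n : ℕ) : ℕ∞) := by
            refine add_le_add ?_ le_rfl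
            exact_mod_cast hrk
        _ = (rk k (cs n γ) + ((3 * (N - n) : ℕ) : ℕ∞)) + (q : ℕ∞) := by
            push_cast
            ring
        _ ≤ rk k (cs N γ') + (q : ℕ∞) := add_le_add hrk' le_rfl
    have h6 : 3 * (n + 1) + 3 * (N - n) ≤ r + q := by exact_mod_cast h5
    have h7 : n ≤ N := le_max_left _ _
    omega
  have h8 : ((3 * (N + 1) : ℕ) : ℝ) ≤ r + q := by exact_mod_cast h4
  linarith

theorem hasArc_empty_of_sVal {k : Type u} [Field k] {s : ℕ} (e : Fin s → ℝ) (c : Fin 3 → ℝ)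
    (a : Fin s → Ideal (MvPolynomial (Fin 3) k)) (m : Fin s → ℕ) (h : sVal e a m ≠ ⊤) :
    ∃ q : ℕ, HasArc k a ∅ m (fun _ => 0) (∑ i, m i) q ∧
      sVal e a m = ((vl e c ∅ m (fun _ => 0) q : ℝ) : EReal) := by
  obtain ⟨K, hK, hkK, γ, r, hγ, hrk, hval⟩ := exists_arc e a m h
  have hr : r ≤ 3 * ((∑ i, m i) + 1) := by
    have := rk_ne_top (k := k) (∑ i, m i) γ
    rw [hrk] at this
    exact_mod_cast this
  refine ⟨3 * ((∑ i, m i) + 1) - r, ⟨K, hK, hkK, γ, hγ, fun j hj => absurd hj (by simp), ?_⟩, ?_⟩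
  · rw [hrk]
    have : 3 * ((∑ i, m i) + 1) ≤ r + (3 * ((∑ i, m i) + 1) - r) := by omega
    exact_mod_cast this
  · rw [hval, vl, Finset.sum_empty]
    congr 1
    rw [Nat.cast_sub hr]
    ring

/-- the order of `f(γ)` for an arc through the origin and `f` in a power of the maximal ideal -/
theorem le_order_of_mem_pow {k : Type*} [Field k] {K : Type*} [Field K] [Algebra k K] {N : ℕ}
    {γ : Fin N → PowerSeries K} (hγ : ∀ i, (PowerSeries.X : PowerSeries K) ∣ γ i) {μ : ℕ}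
    {f : MvPolynomial (Fin N) k} (hf : f ∈ (Ideal.span (Set.range X) : Ideal (MvPolynomial (Fin N) k)) ^ μ) :
    (μ : ℕ∞) ≤ (aeval γ f : PowerSeries K).order := by
  rw [← X_pow_dvd_iff_le, ← Ideal.mem_span_singleton, ← Ideal.span_singleton_pow]
  have h1 : Ideal.map (aeval γ : MvPolynomial (Fin N) k →ₐ[k] PowerSeries K)
      (Ideal.span (Set.range X)) ≤ Ideal.span {PowerSeries.X} := by
    rw [Ideal.map_span, Ideal.span_le]
    rintro _ ⟨_, ⟨i, rfl⟩, rfl⟩
    rw [SetLike.mem_coe, Ideal.mem_span_singleton, aeval_X]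
    exact hγ i
  have h2 := Ideal.mem_map_of_mem (aeval γ : MvPolynomial (Fin N) k →ₐ[k] PowerSeries K) hf
  rw [Ideal.map_pow] at h2
  exact Ideal.pow_right_mono h1 μ h2

/-- the arcs of weight `(1, 1, 1)` -/
theorem weight_arc {k : Type u} [Field k] {s : ℕ} (a : Fin s → Ideal (MvPolynomial (Fin 3) k))
    (μ : Fin s → ℕ) (h : ∀ i, a i ≤ (Ideal.span (Set.range X)) ^ μ i) (B : Finset (Fin 3)) (n : ℕ) :
    HasArc k a B μ (fun _ => 1) n 3 := by
  classical
  obtain ⟨K, hK, -, hkK, -, y, hy⟩ := exists_generic k k (Fin 3 × Fin n)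
  let γ : Fin 3 → PowerSeries K := fun i => PowerSeries.mk fun j =>
    if j = 0 then 0 else if h : j - 1 < n then y (i, ⟨j - 1, h⟩) else 0
  have h0 : ∀ i, PowerSeries.constantCoeff (γ i) = 0 := by
    intro i
    rw [← PowerSeries.coeff_zero_eq_constantCoeff_apply]
    simp only [γ, PowerSeries.coeff_mk, if_true]
  have hX : ∀ i, (PowerSeries.X : PowerSeries K) ∣ γ i := fun i => PowerSeries.X_dvd_iff.2 (h0 i)
  have hc : ∀ i, ∀ l (h : l < n), PowerSeries.coeff (l + 1) (γ i) = y (i, ⟨l, h⟩) := by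
    intro i l h
    have h1 : l + 1 - 1 = l := by omega
    simp only [γ, PowerSeries.coeff_mk, if_neg (Nat.succ_ne_zero l), h1, dif_pos h]
  refine ⟨K, hK, hkK, γ, ⟨h0, fun i f hf => le_order_of_mem_pow hX (h i hf)⟩, fun j _ => ?_, ?_⟩
  · refine (X_pow_dvd_iff_le (γ j) 1).1 ?_
    rw [pow_one]
    exact hX j
  · have h1 := card_le_rk _ hy (cs n γ) (by
      rintro ⟨i, l⟩
      exact ⟨i, (l : ℕ) + 1, l.2, (hc i l l.2).symm⟩)
    have h2 : Nat.card (Fin 3 × Fin n) = 3 * n := by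
      rw [Nat.card_eq_fintype_card]
      simp
    rw [h2] at h1
    have h3 : ((3 * (n + 1) : ℕ) : ℕ∞) = ((3 * n : ℕ) : ℕ∞) + ((3 : ℕ) : ℕ∞) := by
      exact_mod_cast (by ring : 3 * (n + 1) = 3 * n + 3)
    rw [h3]
    exact add_le_add h1 le_rfl

end Pool.Agent.MNJ
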