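import Pool.Agent.Work.MP_6c38a7_ag.N.Defs
import Pool.Agent.Work.MP_6c38a7_ag.Dim

/-!
# Cell MN, exponents larger than 2/3: ranks and base change
-/

namespace Pool.Agent.MNJ

universe u

section

variable {k K K' : Type*} [Field k] [Field K] [Field K'] [Algebra k K] [Algebra k K'] [Algebra K K']
  [IsScalarTower k K K']

theorem rk_image_ge (S : Set K) (hS : S.Finite) : rk k S ≤ rk k (algebraMap K K' '' S) := by
  have hfin : rk k S ≠ ⊤ := ne_top_of_le_ne_top (Set.encard_ne_top_iff.2 hS) (Matroid.eRk_le_encard _ _)
  obtain ⟨r, hr⟩ := ENat.ne_top_iff_exists.1 hfin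
  obtain ⟨T, hT, hTS⟩ := exists_indep_of_le_rk S r hr.le
  rw [← hr]
  have h := card_le_rk (fun i => algebraMap K K' (T i))
    (hT.map' (f := IsScalarTower.toAlgHom k K K') (algebraMap K K').injective)
    (algebraMap K K' '' S) (fun i => ⟨T i, hTS i, rfl⟩)
  rwa [Nat.card_fin] at h

theorem rk_image_le (S : Set K) : rk k (algebraMap K K' '' S) ≤ rk k S := by
  obtain ⟨I, hI⟩ := (AlgebraicIndependent.matroid k K).exists_isBasis S
    (by rw [AlgebraicIndependent.matroid_e]; exact Set.subset_univ _)
  have h1 : rk k (algebraMap K K' '' S) ≤ rk k (algebraMap K K' '' I) := by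
    refine rk_le_of_alg ?_
    rintro _ ⟨a, ha, rfl⟩
    have h2 : a ∈ (AlgebraicIndependent.matroid k K).closure I :=
      hI.subset_closure ha
    rw [mem_closure_iff] at h2
    have hle : ∀ x : IntermediateField.adjoin k I, algebraMap K K' x ∈
        IntermediateField.adjoin k (algebraMap K K' '' I) := by
      intro x
      have h3 : (IntermediateField.adjoin k I).map (IsScalarTower.toAlgHom k K K') =
          IntermediateField.adjoin k (algebraMap K K' '' I) := by
        rw [IntermediateField.adjoin_map]
        rfl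
      rw [← h3]
      exact ⟨x, x.2, rfl⟩
    exact h2.ringHom_of_comp_eq
      (((algebraMap K K').comp (algebraMap (IntermediateField.adjoin k I) K)).codRestrict
        (IntermediateField.adjoin k (algebraMap K K' '' I)) hle) (algebraMap K K')
      (RingHom.injective _) rfl
  refine h1.trans ((rk_le_encard9 _).trans ((Set.encard_image_le _ _).trans ?_))
  rw [hI.encard_eq_eRk]
  rfl

end

/-- additivity of the rank in a tower `k → k' → K` with `k'` algebraic over `k(λ)` -/
def TR (k k' : Type u) [Field k] [Field k'] [Algebra k k'] (lam : Fin 3 → k') (t : ℕ) : Prop :=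
  rk k (Set.range lam) = t ∧
    ∀ x : k', IsAlgebraic (IntermediateField.adjoin k (Set.range lam)) x

theorem TR.ge {k k' : Type u} [Field k] [Field k'] [Algebra k k'] {lam : Fin 3 → k'} {t : ℕ}
    (h : TR k k' lam t) {K : Type u} [Field K] [Algebra k K] [Algebra k' K] [IsScalarTower k k' K]
    (S : Set K) (hS : S.Finite) :
    (t : ℕ∞) + rk k' S ≤ rk k (Set.range (fun j => algebraMap k' K (lam j)) ∪ S) := by
  have hfin : rk k' S ≠ ⊤ := ne_top_of_le_ne_top (Set.encard_ne_top_iff.2 hS) (Matroid.eRk_le_encard _ _)
  obtain ⟨r, hr⟩ := ENat.ne_top_iff_exists.1 hfin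
  obtain ⟨T, hT, hTS⟩ := exists_indep_of_le_rk S r hr.le
  obtain ⟨U, hU, hUS⟩ := exists_indep_of_le_rk (Set.range lam) t h.1.ge
  have h1 := hU.sumElim_comp hT
  have h2 := card_le_rk _ h1 (Set.range (fun j => algebraMap k' K (lam j)) ∪ S) (by
    rintro (i | i)
    · right; exact hTS i
    · left
      obtain ⟨j, hj⟩ := hUS i
      exact ⟨j, by simp [hj]⟩)
  rw [Nat.card_sum, Nat.card_fin, Nat.card_fin] at h2
  rw [← hr]
  refine le_trans (le_of_eq ?_) h2
  push_cast
  rw [add_comm]

theorem TR.le {k k' : Type u} [Field k] [Field k'] [Algebra k k'] {lam : Fin 3 → k'} {t : ℕ}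
    (h : TR k k' lam t) {K : Type u} [Field K] [Algebra k K] [Algebra k' K] [IsScalarTower k k' K]
    (S : Set K) :
    rk k (Set.range (fun j => algebraMap k' K (lam j)) ∪ S) ≤ (t : ℕ∞) + rk k' S := by
  set Λ : Set K := Set.range (fun j => algebraMap k' K (lam j)) with hΛ
  obtain ⟨I, hI⟩ := (AlgebraicIndependent.matroid k' K).exists_isBasis S
    (by rw [AlgebraicIndependent.matroid_e]; exact Set.subset_univ _)
  set L := IntermediateField.adjoin k (Λ ∪ I) with hL
  set A := algebraicClosure L K with hA
  have hΛL : ∀ x : k', algebraMap k' K x ∈ A := by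
    intro x
    rw [hA, mem_algebraicClosure_iff]
    have hle : ∀ y : IntermediateField.adjoin k (Set.range lam), algebraMap k' K y ∈ L := by
      intro y
      have h3 : (IntermediateField.adjoin k (Set.range lam)).map (IsScalarTower.toAlgHom k k' K) =
          IntermediateField.adjoin k (algebraMap k' K '' Set.range lam) := by
        rw [IntermediateField.adjoin_map]
        rfl
      have h4 : algebraMap k' K y ∈ IntermediateField.adjoin k (algebraMap k' K '' Set.range lam) := by
        rw [← h3]
        exact ⟨y, y.2, rfl⟩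
      refine IntermediateField.adjoin.mono k _ _ ?_ h4
      rintro _ ⟨_, ⟨j, rfl⟩, rfl⟩
      exact Or.inl ⟨j, rfl⟩
    exact (h.2 x).ringHom_of_comp_eq
      (((algebraMap k' K).comp (algebraMap (IntermediateField.adjoin k (Set.range lam)) k')).codRestrict
        L hle) (algebraMap k' K) (RingHom.injective _) rfl
  have hIA : ∀ x ∈ IntermediateField.adjoin k' I, x ∈ A := by
    intro x hx
    induction hx using IntermediateField.adjoin_induction with
    | mem x hx =>
      rw [hA, mem_algebraicClosure_iff]
      exact isAlgebraic_algebraMap (⟨x, IntermediateField.subset_adjoin k _ (Or.inr hx)⟩ : L)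
    | algebraMap x => exact hΛL x
    | add x y hx hy h1 h2 => exact A.add_mem h1 h2
    | inv x hx h1 => exact A.inv_mem h1
    | mul x y hx hy h1 h2 => exact A.mul_mem h1 h2
  have h1 : rk k (Λ ∪ S) ≤ rk k (Λ ∪ I) := by
    refine rk_le_of_alg ?_
    rintro a (ha | ha)
    · exact isAlgebraic_algebraMap (⟨a, IntermediateField.subset_adjoin k _ (Or.inl ha)⟩ : L)
    · have h2 : a ∈ (AlgebraicIndependent.matroid k' K).closure I := hI.subset_closure ha
      rw [mem_closure_iff] at h2
      have h3 : IsAlgebraic A a := h2.ringHom_of_comp_eq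
        ((algebraMap (IntermediateField.adjoin k' I) K).codRestrict A fun x => hIA x x.2)
        (RingHom.id K) (RingHom.injective _) rfl
      exact h3.restrictScalars L
  refine h1.trans ((rk_union_le Λ I).trans ?_)
  refine add_le_add ?_ ?_
  · rw [← h.1, hΛ]
    have h5 : Set.range (fun j => algebraMap k' K (lam j)) = algebraMap k' K '' Set.range lam := by
      rw [← Set.range_comp]; rfl
    rw [h5]
    exact rk_image_le _
  · rw [hI.encard_eq_eRk]
    rfl

/-- the algebraic closure of `k(λ)` -/
theorem exists_TR {k K : Type u} [Field k] [Field K] [Algebra k K] (lam : Fin 3 → K) :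
    ∃ (k' Kh : Type u) (_ : Field k') (_ : Field Kh) (_ : IsAlgClosed k') (_ : Algebra k k')
      (_ : Algebra k Kh) (_ : Algebra k' Kh) (_ : Algebra K Kh) (_ : IsScalarTower k k' Kh)
      (_ : IsScalarTower k K Kh) (lam' : Fin 3 → k') (t : ℕ),
      (∀ j, algebraMap k' Kh (lam' j) = algebraMap K Kh (lam j)) ∧ TR k k' lam' t := by
  let Kh := AlgebraicClosure K
  let F : IntermediateField k Kh := IntermediateField.adjoin k (Set.range fun j => algebraMap K Kh (lam j))
  let k' : IntermediateField F Kh := algebraicClosure F Kh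
  have hac : IsAlgClosed k' := IsAlgClosure.isAlgClosed F
  haveI htow : IsScalarTower k k' Kh := IsScalarTower.of_algebraMap_eq (fun x => rfl)
  have hmem : ∀ j, algebraMap K Kh (lam j) ∈ k' := fun j =>
    k'.algebraMap_mem ⟨_, IntermediateField.subset_adjoin k _ ⟨j, rfl⟩⟩
  let lam' : Fin 3 → k' := fun j => ⟨algebraMap K Kh (lam j), hmem j⟩
  have hfin : rk k (Set.range lam') ≠ ⊤ :=
    ne_top_of_le_ne_top (Set.encard_ne_top_iff.2 (Set.finite_range _)) (Matroid.eRk_le_encard _ _)
  obtain ⟨t, ht⟩ := ENat.ne_top_iff_exists.1 hfin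
  refine ⟨k', Kh, inferInstance, inferInstance, hac, inferInstance, inferInstance, inferInstance,
    inferInstance, inferInstance, inferInstance, lam', t, fun j => rfl, ht.symm, fun x => ?_⟩
  have hx : IsAlgebraic F x := Algebra.IsAlgebraic.isAlgebraic x
  -- `F` is generated by the images of `λ`
  have hle : ∀ y : F, algebraMap F k' y ∈ IntermediateField.adjoin k (Set.range lam') := by
    have h3 : (IntermediateField.adjoin k (Set.range lam')).map (IsScalarTower.toAlgHom k k' Kh) = F := by
      rw [IntermediateField.adjoin_map, ← Set.range_comp]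
      rfl
    intro y
    have h4 : (y : Kh) ∈ (IntermediateField.adjoin k (Set.range lam')).map
        (IsScalarTower.toAlgHom k k' Kh) := by rw [h3]; exact y.2
    obtain ⟨z, hz, hzy⟩ := h4
    have h5 : z = algebraMap F k' y := (algebraMap k' Kh).injective (by
      change algebraMap k' Kh z = algebraMap k' Kh (algebraMap F k' y)
      exact hzy)
    rw [← h5]
    exact hz
  exact hx.ringHom_of_comp_eq
    ((algebraMap F k').codRestrict (IntermediateField.adjoin k (Set.range lam')) hle)
    (RingHom.id k') (RingHom.injective _) rfl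

end Pool.Agent.MNJ
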