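import Pool.Agent.Work.MP_6c38a7_ag.N.Ord
import Pool.Agent.Work.MP_6c38a7_ag.N.Extend
import Pool.Agent.Work.MP_6c38a7_ag.Prep

/-!
# Cell MN, exponents larger than 2/3: the blow up of the origin, arcs
-/

namespace Pool.Agent.MNJ

open MvPolynomial

universe u

/-- the rank of a set of coefficients in degrees `g, …, n` -/
theorem rk_cs_le_of_order {k K : Type*} [Field k] [Field K] [Algebra k K] (γ : Fin 3 → PowerSeries K)
    (n g : ℕ) (hg : ∀ j, (g : ℕ∞) ≤ (γ j).order) : rk k (cs n γ) ≤ ((3 * (n + 1 - g) : ℕ) : ℕ∞) := by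
  classical
  set T : Set K := ((((Finset.univ : Finset (Fin 3)) ×ˢ Finset.Icc g n).image
    (fun x : Fin 3 × ℕ => PowerSeries.coeff x.2 (γ x.1)) : Finset K) : Set K) with hT
  have hTc : T.encard ≤ ((3 * (n + 1 - g) : ℕ) : ℕ∞) := by
    rw [hT, Set.encard_coe_eq_coe_finsetCard]
    have h1 := Finset.card_image_le (s := (Finset.univ : Finset (Fin 3)) ×ˢ Finset.Icc g n)
      (f := fun x : Fin 3 × ℕ => PowerSeries.coeff x.2 (γ x.1))
    rw [Finset.card_product, Finset.card_univ, Fintype.card_fin, Nat.card_Icc] at h1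
    exact_mod_cast h1
  have h1 : rk k (cs n γ) ≤ rk k T := by
    refine rk_le_of_alg ?_
    rintro _ ⟨i, j, hj, rfl⟩
    rcases Nat.lt_or_ge j g with h | h
    · rw [PowerSeries.coeff_of_lt_order j (lt_of_lt_of_le (by exact_mod_cast h) (hg i))]
      exact isAlgebraic_zero
    · have h2 : PowerSeries.coeff j (γ i) ∈ T := by
        rw [hT, Finset.mem_coe, Finset.mem_image]
        exact ⟨(i, j), Finset.mem_product.2 ⟨Finset.mem_univ _, Finset.mem_Icc.2 ⟨h, hj⟩⟩, rfl⟩
      exact isAlgebraic_algebraMap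
        (⟨_, IntermediateField.subset_adjoin k T h2⟩ : IntermediateField.adjoin k T)
  exact h1.trans ((rk_le_encard9 _).trans hTc)

/-- contact with an ideal of order zero -/
theorem contact_unit {k : Type*} [Field k] {K : Type*} [Field K] [Algebra k K]
    {I : Ideal (MvPolynomial (Fin 3) k)} (hI : OrdAt0 I 0) (γ : Fin 3 → PowerSeries K)
    (h0 : ∀ i, PowerSeries.constantCoeff (γ i) = 0) (m : ℕ)
    (h : ∀ f ∈ I, (m : ℕ∞) ≤ (aeval γ f : PowerSeries K).order) : m = 0 := by
  obtain ⟨_, h2⟩ := hI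
  obtain ⟨f, hf, hf2⟩ := Set.not_subset.1 h2
  rw [zero_add, pow_one] at hf2
  have hcc : constantCoeff f ≠ 0 := by
    intro hc
    exact hf2 ((mem_idealOfVars_iff_cc f).2 hc)
  have h3 := h f hf
  by_contra hm
  have h4 : PowerSeries.coeff 0 (aeval γ f : PowerSeries K) = 0 :=
    PowerSeries.coeff_of_lt_order 0 (lt_of_lt_of_le (by exact_mod_cast Nat.pos_of_ne_zero hm) h3)
  rw [PowerSeries.coeff_zero_eq_constantCoeff_apply] at h4
  have h5 : PowerSeries.constantCoeff (aeval γ f : PowerSeries K) = algebraMap k K (constantCoeff f) := by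
    clear hf hf2 hcc h3 h4
    induction f using MvPolynomial.induction_on with
    | C a => rw [algHom_C, PowerSeries.algebraMap_apply, PowerSeries.constantCoeff_C, constantCoeff_C]
    | add p q hp hq => rw [map_add, map_add, map_add, map_add, hp, hq]
    | mul_X p i hp =>
      rw [map_mul (aeval γ), map_mul PowerSeries.constantCoeff, aeval_X, h0 i, mul_zero,
        map_mul constantCoeff, constantCoeff_X, mul_zero, map_zero]
  rw [h5] at h4
  exact hcc ((map_eq_zero (algebraMap k K)).1 h4)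

/-- quotient of power series by one of smaller order -/
theorem exists_quot {K : Type*} [Field K] (x y : PowerSeries K) (g : ℕ) (hx : x.order = g)
    (hy : (g : ℕ∞) ≤ y.order) : ∃ q : PowerSeries K, y = x * q := by
  obtain ⟨v, hv⟩ := (X_pow_dvd_iff_le y g).2 hy
  obtain ⟨w, hw⟩ := (X_pow_dvd_iff_le x g).2 hx.ge
  have hne : x ≠ 0 := by
    intro h; rw [h, PowerSeries.order_zero] at hx; exact absurd hx (ENat.top_ne_natCast _)
  have hw0 : PowerSeries.constantCoeff w ≠ 0 := by
    have h1 := PowerSeries.coeff_order hne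
    rw [hx, ENat.toNat_natCast, hw, PowerSeries.coeff_X_pow_mul' , if_pos le_rfl, Nat.sub_self,
      PowerSeries.coeff_zero_eq_constantCoeff_apply] at h1
    exact h1
  refine ⟨w⁻¹ * v, ?_⟩
  rw [hw, hv]
  calc PowerSeries.X ^ g * v = PowerSeries.X ^ g * (w * w⁻¹) * v := by
        rw [PowerSeries.mul_inv_cancel w hw0, mul_one]
    _ = _ := by ring

/-- the blow up of the origin -/
theorem blow_step {k : Type u} [Field k] {s : ℕ} (a : Fin s → Ideal (MvPolynomial (Fin 3) k))
    (μ : Fin s → ℕ) (hμ : ∀ i, OrdAt0 (a i) (μ i)) (B : Finset (Fin 3)) (m : Fin s → ℕ) (ν : Fin 3 → ℕ)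
    (n q : ℕ) (hL : Lev B m ν n) (h : HasArc k a B m ν n q) :
    (∃ g : ℕ, 1 ≤ g ∧ 3 * g ≤ q ∧ (∀ i, m i ≤ g * μ i) ∧ ∀ j ∈ B, ν j ≤ g) ∨
    ∃ (k' : Type u) (_ : Field k') (_ : IsAlgClosed k') (_ : Algebra k k')
      (t : ℕ) (j₀ : Fin 3) (B' : Finset (Fin 3))
      (a' : Fin s → Ideal (MvPolynomial (Fin 3) k')), j₀ ∈ B' ∧ B' ⊆ insert j₀ B ∧
      (∀ i, OrdLe (a' i) (μ i)) ∧
      (∃ (g n' q' : ℕ) (m' : Fin s → ℕ) (ν' : Fin 3 → ℕ), Lev B' m' ν' n' ∧
        HasArc k' a' B' m' ν' n' q' ∧ q' + 2 * g = q + t ∧ (∀ i, m i ≤ m' i + g * μ i) ∧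
        ν' j₀ = g ∧ (∀ j ∈ B', j ≠ j₀ → ν j ≤ ν' j + g) ∧ ∀ j ∈ B, (j ∉ B' ∨ j = j₀) → ν j ≤ g) ∧
      ∀ (m' : Fin s → ℕ) (ν' : Fin 3 → ℕ) (n' q' : ℕ), Lev B' m' ν' n' → HasArc k' a' B' m' ν' n' q' →
        ∃ (g n'' q'' : ℕ) (ν'' : Fin 3 → ℕ), ν' j₀ ≤ g ∧ g ≤ n' + 1 ∧
          n'' ≤ n' + (n' + 1) * (∑ i, μ i + 2) ∧
          Lev B (fun i => m' i + g * μ i) ν'' n'' ∧
          HasArc k a B (fun i => m' i + g * μ i) ν'' n'' q'' ∧ q'' + t = q' + 2 * g ∧
          (∀ j ∈ B, j ∈ B' → j ≠ j₀ → ν'' j = ν' j + g) ∧ ∀ j ∈ B, (j ∉ B' ∨ j = j₀) → ν'' j = g := by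
  classical
  obtain ⟨K₀, _, _, γ₀, hγ₀, hν₀, hrk₀⟩ := h
  obtain ⟨K, _, _, γ, hγ, hν, hrk1, hne⟩ := exists_extend γ₀ hγ₀ hν₀ hL (2 * n + 1) (by omega)
  set N := 2 * n + 1 with hN
  have hrk : ((3 * (N + 1) : ℕ) : ℕ∞) ≤ rk k (cs N γ) + (q : ℕ∞) := by
    have h1 : (3 * (N + 1) : ℕ) = 3 * (n + 1) + 3 * (N - n) := by omega
    calc ((3 * (N + 1) : ℕ) : ℕ∞) = ((3 * (n + 1) : ℕ) : ℕ∞) + ((3 * (N - n) : ℕ) : ℕ∞) := by
          rw [h1, Nat.cast_add]
      _ ≤ (rk k (cs n γ₀) + (q : ℕ∞)) + ((3 * (N - n) : ℕ) : ℕ∞) := by gcongr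
      _ = (rk k (cs n γ₀) + ((3 * (N - n) : ℕ) : ℕ∞)) + (q : ℕ∞) := by
          rw [add_assoc, add_comm (q : ℕ∞), ← add_assoc]
      _ ≤ _ := by gcongr
  clear hrk₀ hrk1 hν₀ hγ₀
  -- small order means codimension
  have hcod : ∀ g : ℕ, (∀ j, (g : ℕ∞) ≤ (γ j).order) → g ≤ N + 1 → 3 * g ≤ q := by
    intro g hg hgN
    have h1 := rk_cs_le_of_order (k := k) γ N g hg
    have h2 : ((3 * (N + 1) : ℕ) : ℕ∞) ≤ ((3 * (N + 1 - g) + q : ℕ) : ℕ∞) := by
      refine hrk.trans ?_
      push_cast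
      push_cast at h1
      gcongr
    have h3 : 3 * (N + 1) ≤ 3 * (N + 1 - g) + q := by exact_mod_cast h2
    omega
  by_cases hbig : ∀ j, ((n + 1 : ℕ) : ℕ∞) ≤ (γ j).order
  · left
    refine ⟨n + 1, by omega, hcod _ hbig (by omega), fun i => ?_, hL.2⟩
    rcases Nat.eq_zero_or_pos (μ i) with h0 | h0
    · have h1 := contact_unit (by rw [← h0]; exact hμ i) γ hγ.1 (m i) (hγ.2 i)
      omega
    · exact (hL.1 i).trans (Nat.le_mul_of_pos_right _ h0)
  push Not at hbig
  -- the coordinate of smallest order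
  obtain ⟨j₀, -, hj₀⟩ := Finset.exists_min_image (Finset.univ : Finset (Fin 3)) (fun j => (γ j).order)
    Finset.univ_nonempty
  obtain ⟨j₁, hj₁⟩ := hbig
  have hlt : (γ j₀).order < ((n + 1 : ℕ) : ℕ∞) := lt_of_le_of_lt (hj₀ j₁ (Finset.mem_univ _)) hj₁
  obtain ⟨g, hg⟩ : ∃ g : ℕ, (γ j₀).order = g := by
    have : (γ j₀).order ≠ ⊤ := ne_top_of_lt hlt
    exact ⟨_, (ENat.natCast_toNat this).symm⟩
  have hgn : g ≤ n := by
    rw [hg] at hlt
    have : g < n + 1 := by exact_mod_cast hlt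
    omega
  have hgall : ∀ j, (g : ℕ∞) ≤ (γ j).order := fun j => by rw [← hg]; exact hj₀ j (Finset.mem_univ _)
  have hg1 : 1 ≤ g := by
    have h1 : (1 : ℕ∞) ≤ (γ j₀).order :=
      PowerSeries.one_le_order_iff_constCoeff_eq_zero.2 (hγ.1 j₀)
    rw [hg] at h1
    exact_mod_cast h1
  by_cases htriv : (∀ i, m i ≤ g * μ i) ∧ ∀ j ∈ B, ν j ≤ g
  · exact Or.inl ⟨g, hg1, hcod g hgall (by omega), htriv.1, htriv.2⟩
  right
  -- the quotients
  choose qq hqq using fun j => exists_quot (γ j₀) (γ j) g hg (hgall j)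
  obtain ⟨k', Kh, _, _, hac, _, _, _, _, _, _, lam, t, hlam, hTR⟩ := exists_TR (k := k)
    (fun j => if j = j₀ then 0 else PowerSeries.constantCoeff (qq j))
  have hlam0 : lam j₀ = 0 := by
    have h1 := hlam j₀
    rw [if_pos rfl, map_zero] at h1
    exact (map_eq_zero _).1 h1
  set B' : Finset (Fin 3) := insert j₀ (B.filter fun j => j ≠ j₀ ∧ lam j = 0) with hB'
  have hB'mem : ∀ j, j ∈ B' ↔ j = j₀ ∨ (j ∈ B ∧ j ≠ j₀ ∧ lam j = 0) := by
    intro j; rw [hB', Finset.mem_insert, Finset.mem_filter]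
  refine ⟨k', inferInstance, hac, inferInstance, t, j₀, B', fun i => blI j₀ lam (a i) (μ i),
    Finset.mem_insert_self _ _, ?_, fun i => ordLe_blI j₀ lam (hμ i), ?_, ?_⟩
  · intro j hj
    rcases (hB'mem j).1 hj with h | h
    · rw [h]; exact Finset.mem_insert_self _ _
    · exact Finset.mem_insert_of_mem h.1
  · -- going up
    let φ : PowerSeries K →+* PowerSeries Kh := PowerSeries.map (algebraMap K Kh)
    let δ : Fin 3 → PowerSeries Kh := fun j => if j = j₀ then φ (γ j₀) else
      φ (qq j) - PowerSeries.C (algebraMap k' Kh (lam j))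
    have hδ0 : ∀ j, PowerSeries.constantCoeff (δ j) = 0 := by
      intro j
      simp only [δ]
      split_ifs with hj
      · change PowerSeries.constantCoeff (PowerSeries.map (algebraMap K Kh) (γ j₀)) = 0
        rw [← PowerSeries.coeff_zero_eq_constantCoeff_apply, PowerSeries.coeff_map,
          PowerSeries.coeff_zero_eq_constantCoeff_apply, hγ.1, map_zero]
      · rw [map_sub, PowerSeries.constantCoeff_C, hlam j, if_neg hj]
        change PowerSeries.constantCoeff (PowerSeries.map (algebraMap K Kh) (qq j)) - _ = 0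
        rw [← PowerSeries.coeff_zero_eq_constantCoeff_apply, PowerSeries.coeff_map,
          PowerSeries.coeff_zero_eq_constantCoeff_apply, sub_self]
    have hdn : dn j₀ lam δ = fun j => φ (γ j) := by
      funext j
      unfold dn
      by_cases hj : j = j₀
      · rw [if_pos hj, hj]
        simp only [δ, if_true]
      · rw [if_neg hj]
        simp only [δ, if_true]
        rw [if_neg hj, sub_add_cancel, ← map_mul, ← hqq j]
    have hordφ : ∀ w : PowerSeries K, (φ w).order = w.order := by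
      intro w
      refine le_antisymm ?_ (PowerSeries.le_order_map _)
      rcases eq_or_ne w 0 with h0 | h0
      · rw [h0, PowerSeries.order_zero]; exact le_top
      · have h1 := PowerSeries.coeff_order h0
        rw [← ENat.natCast_toNat (PowerSeries.order_eq_top.not.2 h0)]
        refine PowerSeries.order_le _ ?_
        change PowerSeries.coeff _ (PowerSeries.map (algebraMap K Kh) w) ≠ 0
        rw [PowerSeries.coeff_map]
        exact fun h2 => h1 ((map_eq_zero _).1 h2)
    have hgδ : (δ j₀).order = g := by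
      simp only [δ, if_true]
      rw [hordφ, hg]
    have haev : ∀ P : MvPolynomial (Fin 3) k, (aeval (dn j₀ lam δ) P : PowerSeries Kh) =
        φ (aeval γ P) := by
      intro P
      rw [hdn]
      induction P using MvPolynomial.induction_on with
      | C b =>
        rw [algHom_C, algHom_C, PowerSeries.algebraMap_apply, PowerSeries.algebraMap_apply]
        change _ = PowerSeries.map (algebraMap K Kh) _
        rw [PowerSeries.map_C, ← IsScalarTower.algebraMap_apply]
      | add p q hp hq => rw [map_add, map_add, map_add, hp, hq]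
      | mul_X p i hp => rw [map_mul, map_mul, map_mul, hp, aeval_X, aeval_X]
    -- ranks
    have hrk2 : rk k (cs N γ) ≤ rk k (cs N (dn j₀ lam δ)) := by
      have hfin : (cs N γ).Finite := by
        refine (((Finset.univ : Finset (Fin 3)) ×ˢ Finset.range (N + 1)).image
          (fun x : Fin 3 × ℕ => PowerSeries.coeff x.2 (γ x.1))).finite_toSet.subset ?_
        rintro _ ⟨i, j, hj, rfl⟩
        rw [Finset.mem_coe, Finset.mem_image]
        exact ⟨(i, j), by simp; omega, rfl⟩
      refine (rk_image_ge (K' := Kh) _ hfin).trans (rk_mono ?_)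
      rintro _ ⟨_, ⟨i, j, hj, rfl⟩, rfl⟩
      refine ⟨i, j, hj, ?_⟩
      rw [hdn]
      change _ = PowerSeries.coeff j (PowerSeries.map (algebraMap K Kh) (γ i))
      rw [PowerSeries.coeff_map]
    have hrk3 : rk k (cs N (dn j₀ lam δ)) ≤ (t : ℕ∞) + rk k' (cs (N - g) δ) + (g : ℕ∞) :=
      (rk_dn_le j₀ lam δ N g (by omega) hgδ.ge).trans (by
        gcongr
        exact hTR.le _)
    have hfin' : rk k' (cs (N - g) δ) ≤ ((3 * (N - g + 1) : ℕ) : ℕ∞) := by
      have := rk_cs_le_of_order (k := k') δ (N - g) 0 (fun j => by simp)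
      simpa using this
    obtain ⟨r', hr'⟩ : ∃ r' : ℕ, rk k' (cs (N - g) δ) = r' := by
      have : rk k' (cs (N - g) δ) ≠ ⊤ := ne_top_of_le_ne_top (ENat.natCast_ne_top _) hfin'
      exact ⟨_, (ENat.natCast_toNat this).symm⟩
    have hr'1 : r' ≤ 3 * (N - g + 1) := by rw [hr'] at hfin'; exact_mod_cast hfin'
    have hr'2 : 3 * (N + 1) ≤ t + r' + g + q := by
      have h1 : ((3 * (N + 1) : ℕ) : ℕ∞) ≤ ((t + r' + g + q : ℕ) : ℕ∞) := by
        refine hrk.trans ?_
        push_cast
        rw [← hr']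
        gcongr
        exact hrk2.trans hrk3
      exact_mod_cast h1
    refine ⟨g, N - g, q + t - 2 * g, fun i => m i - g * μ i, fun j => if j = j₀ then g else ν j - g,
      ⟨fun i => ?_, fun j hj => ?_⟩, ⟨Kh, inferInstance, inferInstance, δ, ⟨hδ0, fun i => ?_⟩,
        fun j hj => ?_, ?_⟩, by omega, fun i => by
        change m i ≤ m i - g * μ i + g * μ i; omega, if_pos rfl, fun j hj hj' => ?_, fun j hj hj' => ?_⟩
    · have := hL.1 i
      change m i - g * μ i ≤ _
      omega
    · simp only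
      split_ifs with hj'
      · omega
      · have h1 : j ∈ B := by
          rcases (hB'mem j).1 hj with h | h
          · exact absurd h hj'
          · exact h.1
        have := hL.2 j h1
        omega
    · refine contact_down j₀ lam δ hgδ fun f hf => ?_
      rw [haev, hordφ]
      exact hγ.2 i f hf
    · by_cases hj' : j = j₀
      · simp only [if_pos hj']
        rw [hj', hgδ]
      · simp only [if_neg hj']
        obtain ⟨hjB, _, hjl⟩ : j ∈ B ∧ j ≠ j₀ ∧ lam j = 0 := by
          rcases (hB'mem j).1 hj with h | h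
          · exact absurd h hj'
          · exact h
        have h1 := hν j hjB
        rw [hqq j, PowerSeries.order_mul, hg] at h1
        have h2 : (δ j).order = (qq j).order := by
          simp only [δ, if_neg hj']
          rw [hjl, map_zero, map_zero, sub_zero, hordφ]
        rw [h2, ENat.natCast_sub]
        exact tsub_le_iff_left.2 h1
    · rw [hr']
      have h1 : 3 * (N - g + 1) ≤ r' + (q + t - 2 * g) := by omega
      exact_mod_cast h1
    · simp only [if_neg hj']
      omega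
    · -- components which do not pass through the new centre
      by_cases hjj : j = j₀
      · have h1 := hν j hj
        rw [hjj, hg] at h1
        rw [hjj]
        exact_mod_cast h1
      · have hjB' : j ∉ B' := hj'.resolve_right hjj
        have hjl : lam j ≠ 0 := by
          intro h0
          exact hjB' ((hB'mem j).2 (Or.inr ⟨hj, hjj, h0⟩))
        have h1 := hν j hj
        rw [hqq j, PowerSeries.order_mul, hg] at h1
        have h2 : PowerSeries.constantCoeff (qq j) ≠ 0 := by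
          intro h0
          apply hjl
          have h3 := hlam j
          rw [if_neg hjj, h0, map_zero] at h3
          exact (map_eq_zero _).1 h3
        have h3 : (qq j).order = 0 := by
          have h4 := PowerSeries.order_le (φ := qq j) 0 (by
            rwa [PowerSeries.coeff_zero_eq_constantCoeff_apply])
          exact le_antisymm (by simpa using h4) (by simp)
        rw [h3, add_zero] at h1
        exact_mod_cast h1
  · -- going down
    rintro m' ν' n' q' hL' ⟨K₁, _, _, δ₁, hδ₁, hν₁, hrk₁⟩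
    obtain ⟨K₂, _, _, δ, hδ, hνδ, hrkδ, hneδ⟩ := exists_extend δ₁ hδ₁ hν₁ hL'
      (n' + (n' + 1) * (∑ i, μ i + 2)) (by omega)
    set N' := n' + (n' + 1) * (∑ i, μ i + 2) with hN'
    have hN'1 : n' < N' := by
      rw [hN']
      have : 0 < (n' + 1) * (∑ i, μ i + 2) := by positivity
      omega
    let _ : Algebra k K₂ := ((algebraMap k' K₂).comp (algebraMap k k')).toAlgebra
    have : IsScalarTower k k' K₂ := IsScalarTower.of_algebraMap_eq fun x => rfl
    -- the order of the first coordinate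
    have hne1 : δ j₀ ≠ 0 := by
      intro h0
      apply hneδ hN'1 j₀
      rw [h0, map_zero]
    obtain ⟨g', hg'⟩ : ∃ g' : ℕ, (δ j₀).order = g' := ⟨_, (PowerSeries.coe_toNat_order hne1).symm⟩
    have hg'n : g' ≤ n' + 1 := by
      have := PowerSeries.order_le (φ := δ j₀) (n' + 1) (hneδ hN'1 j₀)
      rw [hg'] at this
      exact_mod_cast this
    have hνj₀ : ν' j₀ ≤ g' := by
      have := hνδ j₀ (Finset.mem_insert_self _ _)
      rw [hg'] at this
      exact_mod_cast this
    have hN'2 : (n' + 1) * 2 ≤ N' := by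
      rw [hN']
      have : (n' + 1) * 2 ≤ (n' + 1) * (∑ i, μ i + 2) := Nat.mul_le_mul_left _ (by omega)
      omega
    have hg'N : g' ≤ N' := by omega
    -- ranks
    set S := {c | ∃ i, ∃ j, c = PowerSeries.coeff j (δ i) ∧ j ≤ N' ∧ (i = j₀ ∨ j ≤ N' - g')} with hS
    have hSfin : S.Finite := by
      refine (((Finset.univ : Finset (Fin 3)) ×ˢ Finset.range (N' + 1)).image
        (fun x : Fin 3 × ℕ => PowerSeries.coeff x.2 (δ x.1))).finite_toSet.subset ?_
      rintro _ ⟨i, j, rfl, hj, _⟩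
      rw [Finset.mem_coe, Finset.mem_image]
      exact ⟨(i, j), by simp; omega, rfl⟩
    have h1 := le_rk_dn (k := k) j₀ lam δ N' g' hg'N hg' hδ.1 hlam0
    have h2 := hTR.ge S hSfin
    have h3 := rk_cs_le_split (k' := k') j₀ δ N' g' hg'N
    have hfin' : rk k (cs N' (dn j₀ lam δ)) ≤ ((3 * (N' + 1) : ℕ) : ℕ∞) := by
      have := rk_cs_le_of_order (k := k) (dn j₀ lam δ) N' 0 (fun j => by simp)
      simpa using this
    obtain ⟨r, hr⟩ : ∃ r : ℕ, rk k (cs N' (dn j₀ lam δ)) = r := by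
      have : rk k (cs N' (dn j₀ lam δ)) ≠ ⊤ := ne_top_of_le_ne_top (ENat.natCast_ne_top _) hfin'
      exact ⟨_, (ENat.natCast_toNat this).symm⟩
    have hr1 : r ≤ 3 * (N' + 1) := by rw [hr] at hfin'; exact_mod_cast hfin'
    have hr2 : t + 3 * (N' + 1) ≤ r + 2 * g' + q' := by
      have h4 : ((3 * (N' + 1) : ℕ) : ℕ∞) ≤ rk k' (cs N' δ) + (q' : ℕ∞) := by
        have h5 : (3 * (N' + 1) : ℕ) = 3 * (n' + 1) + 3 * (N' - n') := by omega
        calc ((3 * (N' + 1) : ℕ) : ℕ∞) = ((3 * (n' + 1) : ℕ) : ℕ∞) + ((3 * (N' - n') : ℕ) : ℕ∞) := by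
              rw [h5, Nat.cast_add]
          _ ≤ (rk k' (cs n' δ₁) + (q' : ℕ∞)) + ((3 * (N' - n') : ℕ) : ℕ∞) := by gcongr
          _ = (rk k' (cs n' δ₁) + ((3 * (N' - n') : ℕ) : ℕ∞)) + (q' : ℕ∞) := by
              rw [add_assoc, add_comm (q' : ℕ∞), ← add_assoc]
          _ ≤ _ := by gcongr
      have h6 : ((t + 3 * (N' + 1) : ℕ) : ℕ∞) ≤ ((r + 2 * g' + q' : ℕ) : ℕ∞) := by
        calc ((t + 3 * (N' + 1) : ℕ) : ℕ∞) = (t : ℕ∞) + ((3 * (N' + 1) : ℕ) : ℕ∞) := by
              rw [Nat.cast_add]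
          _ ≤ (t : ℕ∞) + ((rk k' S + ((2 * g' : ℕ) : ℕ∞)) + (q' : ℕ∞)) := by
              gcongr
              exact h4.trans (by gcongr)
          _ = ((t : ℕ∞) + rk k' S) + ((2 * g' : ℕ) : ℕ∞) + (q' : ℕ∞) := by
              rw [← add_assoc, ← add_assoc]
          _ ≤ (r : ℕ∞) + ((2 * g' : ℕ) : ℕ∞) + (q' : ℕ∞) := by
              gcongr
              rw [← hr]
              exact h2.trans h1
          _ = _ := by push_cast; rfl
      exact_mod_cast h6
    refine ⟨g', N', q' + 2 * g' - t, fun j => if j ∈ B' ∧ j ≠ j₀ then ν' j + g' else g', hνj₀, hg'n,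
      le_rfl, ⟨fun i => ?_, fun j hj => ?_⟩, ⟨K₂, inferInstance, inferInstance, dn j₀ lam δ,
        ⟨fun j => ?_, fun i => ?_⟩, fun j hj => ?_, ?_⟩, by omega, fun j hj hj1 hj2 => if_pos ⟨hj1, hj2⟩,
      fun j hj hj1 => ?_⟩
    · -- level
      have h4 := hL'.1 i
      have h5 : g' * μ i ≤ (n' + 1) * ∑ i, μ i := Nat.mul_le_mul hg'n
        (Finset.single_le_sum (f := μ) (fun _ _ => Nat.zero_le _) (Finset.mem_univ i))
      have h6 : N' = n' + (n' + 1) * ∑ i, μ i + 2 * (n' + 1) := by rw [hN']; ring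
      change m' i + g' * μ i ≤ _
      omega
    · simp only
      split_ifs with hj'
      · have h4 := hL'.2 j hj'.1
        omega
      · omega
    · unfold dn
      split_ifs
      · exact hδ.1 j₀
      · rw [map_mul, hδ.1 j₀, zero_mul]
    · exact contact_up j₀ lam δ hg'.ge (hμ i).1 (hδ.2 i)
    · simp only
      split_ifs with hj'
      · obtain ⟨_, _, hjl⟩ : j ∈ B ∧ j ≠ j₀ ∧ lam j = 0 := by
          rcases (hB'mem j).1 hj'.1 with h | h
          · exact absurd h hj'.2
          · exact h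
        unfold dn
        rw [if_neg hj'.2, hjl, map_zero, map_zero, add_zero, PowerSeries.order_mul, hg']
        have h4 := hνδ j hj'.1
        push_cast
        rw [add_comm]
        gcongr
      · unfold dn
        split_ifs with hjj
        · rw [hg']
        · rw [PowerSeries.order_mul, hg']
          exact le_self_add
    · rw [hr]
      have h4 : 3 * (N' + 1) ≤ r + (q' + 2 * g' - t) := by omega
      exact_mod_cast h4
    · simp only
      rw [if_neg]
      rintro ⟨h4, h5⟩
      rcases hj1 with h6 | h6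
      · exact h6 h4
      · exact h5 h6

end Pool.Agent.MNJ
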