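import Pool.Agent.Work.MP_6c38a7_ag.N.Extend
import Pool.Agent.Work.MP_6c38a7_ag.N.Step
import Pool.Agent.Work.MP_6c38a7_ag.Main2D
import Pool.Agent.Work.MP_6c38a7_ag.Arith2

/-!
# MN3+: the induction on infinitely near points
-/

namespace Pool.Agent.MNJ

open MvPolynomial

universe u

/-! ### Orders -/

theorem ordAt0_unique {k : Type u} [Field k] {N : ℕ} {I : Ideal (MvPolynomial (Fin N) k)} {μ ν : ℕ}
    (h : OrdAt0 I μ) (h' : OrdAt0 I ν) : μ = ν := by
  rcases lt_trichotomy μ ν with h1 | h1 | h1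
  · exact absurd (h'.1.trans (Ideal.pow_le_pow_right h1)) h.2
  · exact h1
  · exact absurd (h.1.trans (Ideal.pow_le_pow_right h1)) h'.2

theorem ord_bd (k : Type u) [Field k] (B : Finset (Fin 3)) (j : Fin 3) :
    OrdAt0 (bd k B j) (if j ∈ B then 1 else 0) := by
  unfold bd
  split_ifs with h
  · constructor
    · rw [pow_one]
      exact Ideal.span_mono (by rintro _ rfl; exact ⟨j, rfl⟩)
    · intro hc
      have h1 : (X j : MvPolynomial (Fin 3) k) ∈
          (Ideal.span (Set.range X) : Ideal (MvPolynomial (Fin 3) k)) ^ (1 + 1) :=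
        hc (Ideal.subset_span rfl)
      have h2 := (mem_pow_idealOfVars_iff (1 + 1) _).1 h1 (Finsupp.single j 1) (by
        rw [mem_support_iff, coeff_X, if_pos rfl]; exact one_ne_zero)
      rw [Finsupp.degree_single] at h2
      omega
  · constructor
    · rw [pow_zero, Ideal.one_eq_top]
    · intro hc
      have h1 : (1 : MvPolynomial (Fin 3) k) ∈
          (Ideal.span (Set.range X) : Ideal (MvPolynomial (Fin 3) k)) ^ (0 + 1) :=
        hc Submodule.mem_top
      have h2 := (mem_pow_idealOfVars_iff (0 + 1) _).1 h1 0 (by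
        rw [mem_support_iff, coeff_zero_one]; exact (one_ne_zero : (1 : k) ≠ 0))
      rw [map_zero] at h2
      omega

theorem goodLead_of_ord {k : Type u} [Field k] {I : Ideal (MvPolynomial (Fin 3) k)} {μ : ℕ}
    (h : OrdAt0 I μ) (hμ : (μ : k) ≠ 0) : GoodLead I μ := by
  obtain ⟨f, hf, hf'⟩ := Set.not_subset.1 h.2
  have h1 : ∃ d ∈ f.support, d.degree < μ + 1 := by
    by_contra hcon
    push Not at hcon
    exact hf' ((mem_pow_idealOfVars_iff (μ + 1) f).2 hcon)
  obtain ⟨d, hd, hdlt⟩ := h1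
  have h2 : μ ≤ d.degree := (mem_pow_idealOfVars_iff μ f).1 (h.1 hf) d hd
  have h3 : d.degree = μ := by omega
  refine ⟨f, hf, d, hd, h3, ?_⟩
  by_contra hcon
  push Not at hcon
  apply hμ
  rw [← h3, Finsupp.degree_eq_sum]
  push_cast
  exact Finset.sum_eq_zero fun j _ => hcon j

/-! ### Numerics -/

theorem le_of_ordLe {k : Type u} [Field k] {I : Ideal (MvPolynomial (Fin 3) k)} {μ r : ℕ}
    (h : I ≤ (Ideal.span (Set.range X)) ^ μ) (h' : OrdLe I r) : μ ≤ r := by
  by_contra hlt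
  exact h' (h.trans (Ideal.pow_le_pow_right (by omega)))

/-! ### Numerics -/

/-- exponents `> 2/3` or orders `≤ 2`, in characteristic `≠ 2`; exponents `> 1` or orders `≤ 1` -/
theorem hyp_of_large {k : Type u} [Field k] {s : ℕ} (e : Fin s → ℝ) (he : ∀ i, 0 < e i)
    (a : Fin s → Ideal (MvPolynomial (Fin 3) k))
    (hk : ((2 : k) ≠ 0 ∧ ∀ i, 2 / 3 < e i ∨ OrdLe (a i) 2) ∨ ∀ i, 1 < e i ∨ OrdLe (a i) 1) :
    Hyp k e a := by
  classical
  intro μ hμ
  by_cases h : 2 < ∑ i, e i * (μ i : ℝ)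
  · exact Or.inl h
  push Not at h
  right
  have hnn : ∀ i, 0 ≤ e i * (μ i : ℝ) := fun i => mul_nonneg (he i).le (Nat.cast_nonneg _)
  have hle : ∀ i, e i * (μ i : ℝ) ≤ 2 := fun i =>
    (Finset.single_le_sum (f := fun i => e i * (μ i : ℝ)) (fun j _ => hnn j)
      (Finset.mem_univ i)).trans h
  refine ⟨Finset.univ.filter fun i => ((μ i : ℕ) : k) ≠ 0, fun i hi => (Finset.mem_filter.1 hi).2, ?_⟩
  rw [Finset.sum_filter]
  rcases hk with ⟨h2, hk⟩ | hk
  · have hμ2 : ∀ i, μ i ≤ 2 := by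
      intro i
      by_contra hlt
      have h3 : (3 : ℝ) ≤ μ i := by exact_mod_cast (by omega : 3 ≤ μ i)
      rcases hk i with h4 | h4
      · have := hle i
        nlinarith
      · have := le_of_ordLe (hμ i) h4
        omega
    have hterm : ∀ i, e i * (μ i : ℝ) ≤
        (if ((μ i : ℕ) : k) ≠ 0 then e i else 0) + 1 / 2 * (e i * (μ i : ℝ)) := by
      intro i
      have h3 := hμ2 i
      have h4 := he i
      interval_cases h5 : μ i
      · simp
      · simp
        linarith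
      · rw [if_pos (by exact_mod_cast h2)]
        push_cast
        linarith
    have hsum := Finset.sum_le_sum fun i (_ : i ∈ Finset.univ) => hterm i
    rw [Finset.sum_add_distrib, ← Finset.mul_sum] at hsum
    linarith
  · have hμ1 : ∀ i, μ i ≤ 1 := by
      intro i
      by_contra hlt
      have h3 : (2 : ℝ) ≤ μ i := by exact_mod_cast (by omega : 2 ≤ μ i)
      rcases hk i with h4 | h4
      · have := hle i
        nlinarith
      · have := le_of_ordLe (hμ i) h4
        omega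
    have h1 : ∑ i, e i * (μ i : ℝ) ≤ ∑ i, if ((μ i : ℕ) : k) ≠ 0 then e i else 0 := by
      refine Finset.sum_le_sum fun i _ => ?_
      have h2 := hμ1 i
      interval_cases h3 : μ i
      · simp
      · simp
    linarith

/-- a bound of the orders -/
noncomputable def mb {s : ℕ} (e : Fin s → ℝ) : ℕ := ∑ i, ⌊3 / e i⌋₊

theorem mu_le_mb {s : ℕ} (e : Fin s → ℝ) (he : ∀ i, 0 < e i) (μ : Fin s → ℕ)
    (h : ∑ i, e i * (μ i : ℝ) ≤ 3) (i : Fin s) : μ i ≤ mb e := by
  have h1 : e i * (μ i : ℝ) ≤ ∑ i, e i * (μ i : ℝ) :=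
    Finset.single_le_sum (f := fun i => e i * (μ i : ℝ))
      (fun j _ => mul_nonneg (he j).le (Nat.cast_nonneg _)) (Finset.mem_univ i)
  have h2 : (μ i : ℝ) ≤ 3 / e i := by
    rw [le_div_iff₀ (he i)]
    linarith
  exact (Nat.le_floor h2).trans
    (Finset.single_le_sum (f := fun i => ⌊3 / e i⌋₊) (fun _ _ => Nat.zero_le _)
      (Finset.mem_univ i))

theorem exists_gap {s : ℕ} (e : Fin s → ℝ) (he : ∀ i, 0 < e i) :
    ∃ δ : ℝ, 0 < δ ∧ ∀ μ : Fin s → ℕ, 2 < ∑ i, e i * (μ i : ℝ) → ∑ i, e i * (μ i : ℝ) ≤ 3 →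
      2 + δ ≤ ∑ i, e i * (μ i : ℝ) := by
  classical
  let S : Finset (Fin s → ℕ) := (Fintype.piFinset fun _ : Fin s => Finset.range (mb e + 1)).filter
    fun μ => 2 < ∑ i, e i * (μ i : ℝ)
  have hmem : ∀ μ : Fin s → ℕ, 2 < ∑ i, e i * (μ i : ℝ) → ∑ i, e i * (μ i : ℝ) ≤ 3 → μ ∈ S := by
    intro μ h1 h2
    refine Finset.mem_filter.2 ⟨Fintype.mem_piFinset.2 fun i => Finset.mem_range.2 ?_, h1⟩
    have := mu_le_mb e he μ h2 i
    omega
  rcases S.eq_empty_or_nonempty with hS | hS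
  · refine ⟨1, one_pos, fun μ h1 h2 => ?_⟩
    have := hmem μ h1 h2
    rw [hS] at this
    exact absurd this (Finset.notMem_empty _)
  · obtain ⟨μ₀, h₀, hmin⟩ := S.exists_min_image (fun μ => ∑ i, e i * (μ i : ℝ)) hS
    have h₀' := (Finset.mem_filter.1 h₀).2
    refine ⟨∑ i, e i * (μ₀ i : ℝ) - 2, by linarith, fun μ h1 h2 => ?_⟩
    have := hmin μ (hmem μ h1 h2)
    linarith

/-! ### The boundary sums -/

theorem bsum {B B' : Finset (Fin 3)} {j₀ : Fin 3} (hB : B' ⊆ insert j₀ B) (f h : Fin 3 → ℝ) :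
    ∑ j ∈ B, ((if j ∈ B' ∧ j ≠ j₀ then f j else 0) + h j) =
      ∑ j ∈ B'.erase j₀, f j + ∑ j ∈ B, h j := by
  classical
  rw [Finset.sum_add_distrib, ← Finset.sum_filter]
  congr 2
  ext j
  simp only [Finset.mem_filter, Finset.mem_erase]
  constructor
  · rintro ⟨-, h1, h2⟩
    exact ⟨h2, h1⟩
  · rintro ⟨h1, h2⟩
    refine ⟨?_, h2, h1⟩
    exact (Finset.mem_insert.1 (hB h2)).resolve_left h1

theorem upd_sum {B' : Finset (Fin 3)} {j₀ : Fin 3} (hj : j₀ ∈ B') (c : Fin 3 → ℝ) (x : ℝ)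
    (ν : Fin 3 → ℕ) : ∑ j ∈ B', Function.update c j₀ x j * (ν j : ℝ) =
      x * (ν j₀ : ℝ) + ∑ j ∈ B'.erase j₀, c j * (ν j : ℝ) := by
  classical
  rw [← Finset.add_sum_erase _ _ hj, Function.update_self]
  congr 1
  refine Finset.sum_congr rfl fun j hj' => ?_
  rw [Function.update_of_ne (Finset.ne_of_mem_erase hj')]

/-! ### One step -/

theorem node_step {s : ℕ} (e : Fin s → ℝ) (he0 : ∀ i, 0 < e i) (c : Fin 3 → ℝ)
    (hc : ∀ j, 0 < c j) (B : Finset (Fin 3))
    (hchild : ∀ (μ : Fin s → ℕ) (j₀ : Fin 3) (B' : Finset (Fin 3)),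
      2 < ∑ i, e i * (μ i : ℝ) → ∑ i, e i * (μ i : ℝ) + ∑ j ∈ B, c j ≤ 3 → j₀ ∈ B' →
      B' ⊆ insert j₀ B → ∃ ℓ : ℕ,
        Node.{u} e (Function.update c j₀ (∑ i, e i * (μ i : ℝ) + ∑ j ∈ B, c j - 2)) B' ℓ) :
    ∃ ℓ : ℕ, Node.{u} e c B ℓ := by
  classical
  have hec : ∀ i, 0 < Fin.append e c i := by
    intro i
    refine Fin.addCases (fun i => ?_) (fun j => ?_) i
    · rw [Fin.append_left]; exact he0 i
    · rw [Fin.append_right]; exact hc j
  obtain ⟨ℓ₁, hℓ₁⟩ := main_step2.{u} (Fin.append e c) hec (arith2 _ hec)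
  choose! L hL using hchild
  set R : ℕ := mb e with hR
  set S5 : Finset (Fin s → ℕ) := Fintype.piFinset fun _ : Fin s => Finset.range (R + 1) with hS5
  set ℓ' : ℕ := ∑ μ ∈ S5, ∑ j₀ : Fin 3, ∑ B' : Finset (Fin 3), L μ j₀ B' with hℓ'
  set ℓ₂ : ℕ := ∑ i, (⌊3 / Fin.append e c i⌋₊ + 1) with hℓ₂
  refine ⟨ℓ₁ + ℓ₂ + (s * R + 3) + (ℓ' + (ℓ' + 1) * (s * R + 2)), ?_⟩
  set ℓ : ℕ := ℓ₁ + ℓ₂ + (s * R + 3) + (ℓ' + (ℓ' + 1) * (s * R + 2)) with hℓ
  intro k _ _ a hk m ν n q hLev hArc
  have hM := sVal_le_of_hasArc e c hLev hArc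
  set A := Fin.append a (bd k B) with hA
  set E := Fin.append e c with hE
  set M : Fin (s + 3) → ℕ := Fin.append m (fun j => if j ∈ B then ν j else 0) with hMdef
  have conv : ∀ M' : Fin (s + 3) → ℕ, ∑ i, M' i ≤ ℓ →
      (sVal E A M' < 0 ∨ sVal E A M' ≤ ((vl e c B m ν q : ℝ) : EReal)) →
      ∃ (m' : Fin s → ℕ) (ν' : Fin 3 → ℕ) (n' q' : ℕ), Lev B m' ν' n' ∧ HasArc k a B m' ν' n' q' ∧
        n' ≤ ℓ ∧ (vl e c B m' ν' q' < 0 ∨ vl e c B m' ν' q' ≤ vl e c B m ν q) := by
    intro M' hM' hv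
    have hne : sVal E A M' ≠ ⊤ := by
      rcases hv with hv | hv
      · exact ne_top_of_lt hv
      · exact ne_top_of_le_ne_top (EReal.coe_ne_top _) hv
    obtain ⟨m', ν', q', hL', hA', hs'⟩ := hasArc_of_sVal e c a B M' hne
    refine ⟨m', ν', ∑ i, M' i, q', hL', hA', hM', ?_⟩
    rw [hE, hA, hs'] at hv
    rcases hv with hv | hv
    · left; exact_mod_cast hv
    · right; exact_mod_cast hv
  rcases small_or_neg E hec A with ⟨μ', hμ', h3⟩ | ⟨M', hM', hneg⟩
  swap
  · exact conv M' (by omega) (Or.inl hneg)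
  set μ : Fin s → ℕ := fun i => μ' (Fin.castAdd 3 i) with hμdef
  have hμ : ∀ i, OrdAt0 (a i) (μ i) := by
    intro i
    have := hμ' (Fin.castAdd 3 i)
    rwa [hA, Fin.append_left] at this
  have hμB : ∀ j, μ' (Fin.natAdd s j) = if j ∈ B then 1 else 0 := by
    intro j
    have := hμ' (Fin.natAdd s j)
    rw [hA, Fin.append_right] at this
    exact ordAt0_unique this (ord_bd k B j)
  have hEμ : ∑ i, E i * (μ' i : ℝ) = ∑ i, e i * (μ i : ℝ) + ∑ j ∈ B, c j := by
    rw [Fin.sum_univ_add]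
    congr 1
    · refine Finset.sum_congr rfl fun i _ => ?_
      rw [hE, Fin.append_left]
    · rw [← Finset.sum_filter_add_sum_filter_not Finset.univ (fun j => j ∈ B)]
      have h1 : ∑ j ∈ Finset.univ.filter (fun j => ¬ j ∈ B),
          E (Fin.natAdd s j) * ((μ' (Fin.natAdd s j) : ℕ) : ℝ) = 0 := by
        refine Finset.sum_eq_zero fun j hj => ?_
        rw [hμB, if_neg (Finset.mem_filter.1 hj).2]
        simp
      rw [h1, add_zero, Finset.filter_mem_eq_inter, Finset.univ_inter]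
      refine Finset.sum_congr rfl fun j hj => ?_
      rw [hμB, if_pos hj, hE, Fin.append_right]
      simp
  have hcB : 0 ≤ ∑ j ∈ B, c j := Finset.sum_nonneg fun j _ => (hc j).le
  rw [hEμ] at h3
  have hμ3 : ∑ i, e i * (μ i : ℝ) ≤ 3 := by linarith
  have hμ4 := mu_le_mb e he0 μ hμ3
  by_cases h2 : ∑ i, e i * (μ i : ℝ) ≤ 2
  · -- the main step
    set T : Finset (Fin (s + 3)) := Finset.univ.filter fun i => ((μ' i : ℕ) : k) ≠ 0 with hT
    have hTs : ∑ i, E i * (μ' i : ℝ) ≤ 1 + ∑ i ∈ T, E i := by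
      rw [hEμ, hT, Finset.sum_filter, Fin.sum_univ_add]
      have h4 : ∑ i, e i * (μ i : ℝ) ≤ 1 + ∑ i, if ((μ i : ℕ) : k) ≠ 0 then e i else 0 := by
        rcases hk μ (fun i => (hμ i).1) with h | ⟨T₀, hT₀, h⟩
        · exact absurd h (not_lt.2 h2)
        · refine h.trans ?_
          rw [← Finset.sum_filter]
          have h' : ∑ i ∈ T₀, e i ≤ ∑ i ∈ Finset.univ.filter (fun i => ((μ i : ℕ) : k) ≠ 0), e i :=
            Finset.sum_le_sum_of_subset_of_nonneg (fun i hi =>
              Finset.mem_filter.2 ⟨Finset.mem_univ _, hT₀ i hi⟩) fun i _ _ => (he0 i).le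
          linarith
      have h5 : ∑ i : Fin s, (if ((μ' (Fin.castAdd 3 i) : ℕ) : k) ≠ 0 then E (Fin.castAdd 3 i) else 0)
          = ∑ i, if ((μ i : ℕ) : k) ≠ 0 then e i else 0 := by
        refine Finset.sum_congr rfl fun i _ => ?_
        rw [hE, Fin.append_left]
      have h6 : ∑ j : Fin 3, (if ((μ' (Fin.natAdd s j) : ℕ) : k) ≠ 0 then E (Fin.natAdd s j) else 0)
          = ∑ j ∈ B, c j := by
        rw [← Finset.sum_filter_add_sum_filter_not Finset.univ (fun j => j ∈ B)]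
        have h1 : ∑ j ∈ Finset.univ.filter (fun j => ¬ j ∈ B),
            (if ((μ' (Fin.natAdd s j) : ℕ) : k) ≠ 0 then E (Fin.natAdd s j) else 0) = 0 := by
          refine Finset.sum_eq_zero fun j hj => ?_
          rw [hμB, if_neg (Finset.mem_filter.1 hj).2]
          simp
        rw [h1, add_zero, Finset.filter_mem_eq_inter, Finset.univ_inter]
        refine Finset.sum_congr rfl fun j hj => ?_
        rw [hμB, if_pos hj, hE, Fin.append_right]
        simp
      rw [h5, h6]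
      linarith
    have hMtop : sVal E A M ≠ ⊤ := ne_top_of_le_ne_top (EReal.coe_ne_top _) hM
    obtain ⟨M', hM', hv⟩ := hℓ₁ k A μ' T hμ' (fun i hi => goodLead_of_ord (hμ' i)
      (Finset.mem_filter.1 hi).2) hTs M hMtop
    exact conv M' (by omega) (hv.imp_right fun h => h.trans hM)
  push Not at h2
  set σ : ℝ := ∑ i, e i * (μ i : ℝ) + ∑ j ∈ B, c j with hσ
  rcases blow_step a μ hμ B m ν n q hLev hArc with ⟨g, hg, hgq, hgm, hgν⟩ |
    ⟨k', _, _, _, t, j₀, B', a', hj₀, hB', hord, ⟨g, n', q', m', ν', hL', hA', hq, hm, hνj, hν1, hν2⟩, hback⟩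
  · -- dominated by the weights `(1, 1, 1)`
    refine conv μ' ?_ (Or.inr ?_)
    · have h5 : ∑ i, μ' i ≤ s * R + 3 := by
        rw [Fin.sum_univ_add]
        have h6 : ∑ i : Fin s, μ' (Fin.castAdd 3 i) ≤ ∑ _i : Fin s, R :=
          Finset.sum_le_sum fun i _ => hμ4 i
        have h7 : ∑ j : Fin 3, μ' (Fin.natAdd s j) ≤ ∑ _j : Fin 3, 1 := by
          refine Finset.sum_le_sum fun j _ => ?_
          rw [hμB]
          split_ifs <;> omega
        simp only [Finset.sum_const, Finset.card_univ, Fintype.card_fin, smul_eq_mul] at h6 h7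
        omega
      omega
    · have h4 := mon_arc E A (fun _ => 1) (fun _ => le_rfl) μ' (by
        intro i f hf d hd
        have h7 := (mem_pow_idealOfVars_iff (μ' i) f).1 ((hμ' i).1 hf) d hd
        rw [Finsupp.degree_eq_sum] at h7
        simpa using h7)
      refine h4.trans ?_
      rw [hEμ]
      have h5 : ((∑ _j : Fin 3, 1 : ℕ) : ℝ) - σ ≤ vl e c B m ν q := by
        have h6 : ∑ i, e i * (m i : ℝ) ≤ g * ∑ i, e i * (μ i : ℝ) := by
          rw [Finset.mul_sum]
          refine Finset.sum_le_sum fun i _ => ?_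
          have : (m i : ℝ) ≤ g * μ i := by exact_mod_cast hgm i
          calc e i * (m i : ℝ) ≤ e i * (g * μ i) := mul_le_mul_of_nonneg_left this (he0 i).le
            _ = g * (e i * μ i) := by ring
        have h7 : ∑ j ∈ B, c j * (ν j : ℝ) ≤ g * ∑ j ∈ B, c j := by
          rw [Finset.mul_sum]
          refine Finset.sum_le_sum fun j hj => ?_
          have : (ν j : ℝ) ≤ g := by exact_mod_cast hgν j hj
          calc c j * (ν j : ℝ) ≤ c j * g := mul_le_mul_of_nonneg_left this (hc j).le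
            _ = g * c j := by ring
        have h8 : (3 : ℝ) * g ≤ q := by exact_mod_cast hgq
        have h9 : (1 : ℝ) ≤ g := by exact_mod_cast hg
        have h10 : 3 - σ ≤ g * (3 - σ) := by
          have : 0 ≤ 3 - σ := by linarith
          nlinarith
        unfold vl
        simp only [Finset.sum_const, Finset.card_univ, Fintype.card_fin, smul_eq_mul, mul_one]
        push_cast
        have h11 : (g : ℝ) * σ = g * ∑ i, e i * (μ i : ℝ) + g * ∑ j ∈ B, c j := by
          rw [hσ]; ring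
        nlinarith
      exact_mod_cast h5
  · -- an arc of the blow up
    have hk' : Hyp k' e a' := by
      intro μ₁ hμ₁
      rcases hk μ₁ (fun i => (hμ i).1.trans
        (Ideal.pow_le_pow_right (le_of_ordLe (hμ₁ i) (hord i)))) with h | ⟨T₀, hT₀, h⟩
      · exact Or.inl h
      · refine Or.inr ⟨T₀, fun i hi h0 => hT₀ i hi ?_, h⟩
        apply (algebraMap k k').injective
        rw [map_natCast, map_zero]
        exact h0
    have hLn := hL μ j₀ B' h2 h3 hj₀ hB'
    have hLℓ : L μ j₀ B' ≤ ℓ' := by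
      have h4 : μ ∈ S5 := Fintype.mem_piFinset.2 fun i => Finset.mem_range.2 (by
        have := hμ4 i
        omega)
      calc L μ j₀ B' ≤ ∑ B' : Finset (Fin 3), L μ j₀ B' :=
            Finset.single_le_sum (f := fun B' => L μ j₀ B') (fun _ _ => Nat.zero_le _)
              (Finset.mem_univ B')
        _ ≤ ∑ j₀ : Fin 3, ∑ B' : Finset (Fin 3), L μ j₀ B' :=
            Finset.single_le_sum (f := fun j₀ => ∑ B' : Finset (Fin 3), L μ j₀ B')
              (fun _ _ => Nat.zero_le _) (Finset.mem_univ j₀)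
        _ ≤ ℓ' := Finset.single_le_sum
              (f := fun μ => ∑ j₀ : Fin 3, ∑ B' : Finset (Fin 3), L μ j₀ B')
              (fun _ _ => Nat.zero_le _) h4
    obtain ⟨m₂, ν₂, n₂, q₂, hL₂, hA₂, hn₂, hv₂⟩ := hLn k' a' hk' m' ν' n' q' hL' hA'
    obtain ⟨g₃, n₃, q₃, ν₃, hg₃, hg₃', hn₃, hL₃, hA₃, hq₃, hν₃, hν₃'⟩ := hback m₂ ν₂ n₂ q₂ hL₂ hA₂
    refine ⟨_, ν₃, n₃, q₃, hL₃, hA₃, ?_, ?_⟩
    · have h4 : ∑ i, μ i ≤ s * R := by
        have : ∑ i : Fin s, μ i ≤ ∑ _i : Fin s, R := Finset.sum_le_sum fun i _ => hμ4 i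
        simp only [Finset.sum_const, Finset.card_univ, Fintype.card_fin, smul_eq_mul] at this
        omega
      have h5 : (n₂ + 1) * (∑ i, μ i + 2) ≤ (ℓ' + 1) * (s * R + 2) :=
        Nat.mul_le_mul (by omega) (by omega)
      omega
    · -- comparison of the values
      have hup : vl e (Function.update c j₀ (σ - 2)) B' m' ν' q' ≤ vl e c B m ν q + t := by
        have h4 : ∑ i, e i * (m i : ℝ) ≤ ∑ i, e i * (m' i : ℝ) + g * ∑ i, e i * (μ i : ℝ) := by
          rw [Finset.mul_sum, ← Finset.sum_add_distrib]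
          refine Finset.sum_le_sum fun i _ => ?_
          have : (m i : ℝ) ≤ m' i + g * μ i := by exact_mod_cast hm i
          calc e i * (m i : ℝ) ≤ e i * (m' i + g * μ i) :=
                mul_le_mul_of_nonneg_left this (he0 i).le
            _ = e i * m' i + g * (e i * μ i) := by ring
        have h5 : ∑ j ∈ B, c j * (ν j : ℝ) ≤
            ∑ j ∈ B'.erase j₀, c j * (ν' j : ℝ) + g * ∑ j ∈ B, c j := by
          rw [Finset.mul_sum, ← bsum hB']
          refine Finset.sum_le_sum fun j hj => ?_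
          split_ifs with hcase
          · have : (ν j : ℝ) ≤ ν' j + g := by exact_mod_cast hν1 j hcase.1 hcase.2
            calc c j * (ν j : ℝ) ≤ c j * (ν' j + g) := mul_le_mul_of_nonneg_left this (hc j).le
              _ = c j * ν' j + g * c j := by ring
          · have : (ν j : ℝ) ≤ g := by
              have h6 : j ∉ B' ∨ j = j₀ := by
                by_contra hcon
                push Not at hcon
                exact hcase hcon
              exact_mod_cast hν2 j hj h6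
            calc c j * (ν j : ℝ) ≤ c j * g := mul_le_mul_of_nonneg_left this (hc j).le
              _ = 0 + g * c j := by ring
        have h6 : (q' : ℝ) + 2 * g = q + t := by exact_mod_cast hq
        unfold vl
        rw [upd_sum hj₀, hνj]
        have h7 : (σ - 2) * (g : ℝ) = g * ∑ i, e i * (μ i : ℝ) + g * ∑ j ∈ B, c j - 2 * g := by
          rw [hσ]; ring
        linarith
      have hdown : vl e c B (fun i => m₂ i + g₃ * μ i) ν₃ q₃ ≤
          vl e (Function.update c j₀ (σ - 2)) B' m₂ ν₂ q₂ - t := by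
        have h4 : ∑ i, e i * ((m₂ i + g₃ * μ i : ℕ) : ℝ) =
            ∑ i, e i * (m₂ i : ℝ) + g₃ * ∑ i, e i * (μ i : ℝ) := by
          rw [Finset.mul_sum, ← Finset.sum_add_distrib]
          refine Finset.sum_congr rfl fun i _ => ?_
          push_cast
          ring
        have h5 : ∑ j ∈ B, c j * (ν₃ j : ℝ) =
            ∑ j ∈ B'.erase j₀, c j * (ν₂ j : ℝ) + g₃ * ∑ j ∈ B, c j := by
          rw [Finset.mul_sum, ← bsum hB']
          refine Finset.sum_congr rfl fun j hj => ?_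
          split_ifs with hcase
          · rw [hν₃ j hj hcase.1 hcase.2]
            push_cast
            ring
          · have h6 : j ∉ B' ∨ j = j₀ := by
              by_contra hcon
              push Not at hcon
              exact hcase hcon
            rw [hν₃' j hj h6]
            ring
        have h6 : (q₃ : ℝ) + t = q₂ + 2 * g₃ := by exact_mod_cast hq₃
        have h8 : (ν₂ j₀ : ℝ) ≤ g₃ := by exact_mod_cast hg₃
        unfold vl
        rw [upd_sum hj₀, h4, h5]
        have h7 : (σ - 2) * (g₃ : ℝ) = g₃ * ∑ i, e i * (μ i : ℝ) + g₃ * ∑ j ∈ B, c j - 2 * g₃ := by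
          rw [hσ]; ring
        have h9 : (σ - 2) * (ν₂ j₀ : ℝ) ≤ (σ - 2) * (g₃ : ℝ) :=
          mul_le_mul_of_nonneg_left h8 (by linarith)
        linarith
      have ht : (0 : ℝ) ≤ t := Nat.cast_nonneg _
      rcases hv₂ with hv | hv
      · left; linarith
      · right; linarith

/-! ### The induction -/

theorem node_all {s : ℕ} (e : Fin s → ℝ) (he : ∀ i, 0 < e i) {δ : ℝ}
    (hgap : ∀ μ : Fin s → ℕ, 2 < ∑ i, e i * (μ i : ℝ) → ∑ i, e i * (μ i : ℝ) ≤ 3 →
      2 + δ ≤ ∑ i, e i * (μ i : ℝ)) (N : ℕ) :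
    ∀ (c : Fin 3 → ℝ) (B : Finset (Fin 3)), (∀ j, 0 < c j ∧ c j ≤ 1) →
      ((∃ j ∈ B, 1 - N * δ < c j) ∨ 1 - N * δ < 0) → ∃ ℓ : ℕ, Node.{u} e c B ℓ := by
  induction N with
  | zero =>
    intro c B hc h
    exfalso
    rcases h with ⟨j, -, hj⟩ | h
    · have := (hc j).2
      simp at hj
      linarith
    · simp at h
      linarith
  | succ N ih =>
    intro c B hc h
    refine node_step e he c (fun j => (hc j).1) B fun μ j₀ B' h2 h3 hj₀ hB' => ?_
    have hcB : 0 ≤ ∑ j ∈ B, c j := Finset.sum_nonneg fun j _ => (hc j).1.le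
    have h4 := hgap μ h2 (by linarith)
    refine ih _ B' (fun j => ?_) (Or.inl ⟨j₀, hj₀, ?_⟩)
    · by_cases hj : j = j₀
      · subst hj
        rw [Function.update_self]
        constructor <;> linarith
      · rw [Function.update_of_ne hj]
        exact hc j
    · rw [Function.update_self]
      push_cast at h
      rcases h with ⟨j, hj, hlt⟩ | hlt
      · have h5 : c j ≤ ∑ j ∈ B, c j :=
          Finset.single_le_sum (f := fun j => c j) (fun j _ => (hc j).1.le) hj
        linarith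
      · linarith

theorem node_induction {s : ℕ} (e : Fin s → ℝ) (he : ∀ i, 0 < e i) :
    ∃ ℓ : ℕ, Node.{u} e (fun _ => 1) ∅ ℓ := by
  obtain ⟨δ, hδ, hgap⟩ := exists_gap e he
  obtain ⟨N, hN⟩ := exists_nat_gt (1 / δ)
  refine node_all.{u} e he hgap N _ _ (fun _ => ⟨one_pos, le_rfl⟩) (Or.inr ?_)
  rw [div_lt_iff₀ hδ] at hN
  linarith

/-- Q1 for `N = 3` under the numerical hypothesis -/
theorem large_or_double {s : ℕ} (e : Fin s → ℝ) (he : ∀ i, 0 < e i) :
    ∃ ℓ : ℕ, ∀ (k : Type u) [Field k] [IsAlgClosed k]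
      (a : Fin s → Ideal (MvPolynomial (Fin 3) k)), Hyp k e a →
        ∃ m : Fin s → ℕ, ∑ i, m i ≤ ℓ ∧ Computes e a m := by
  obtain ⟨ℓ, hℓ⟩ := node_induction.{u} e he
  refine ⟨s * (ℓ + 1), fun k _ _ a hk => ?_⟩
  refine computes_of_step e a _ fun m hm => ?_
  obtain ⟨q, hA, hv⟩ := hasArc_empty_of_sVal e (fun _ => 1) a m hm
  have hL : Lev (∅ : Finset (Fin 3)) m (fun _ => 0) (∑ i, m i) := by
    refine ⟨fun i => ?_, fun j hj => absurd hj (Finset.notMem_empty _)⟩
    have : m i ≤ ∑ i, m i := Finset.single_le_sum (f := m) (fun _ _ => Nat.zero_le _) (Finset.mem_univ i)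
    omega
  obtain ⟨m', ν', n', q', hL', hA', hn', hv'⟩ := hℓ k a hk m _ _ q hL hA
  refine ⟨m', ?_, ?_⟩
  · have h1 : ∑ i, m' i ≤ ∑ _i : Fin s, (ℓ + 1) := by
      refine Finset.sum_le_sum fun i _ => ?_
      have := hL'.1 i
      omega
    simpa using h1
  · have h2 := sVal_of_hasArc_empty e (fun _ => 1) hL' hA'
    rcases hv' with hv' | hv'
    · left
      refine lt_of_le_of_lt h2 ?_
      exact_mod_cast hv'
    · right
      rw [hv]
      refine h2.trans ?_
      exact_mod_cast hv'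

end Pool.Agent.MNJ
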