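import Pool.Agent.Work.MP_6c38a7_ag.N.Blow

/-!
# Cell MN: the order does not grow under the blow up of the origin
-/

namespace Pool.Agent.MNJ

open MvPolynomial

universe u

theorem eval₂_homog {R S : Type*} [CommSemiring R] [CommSemiring S] (f : R →+* S)
    {F : MvPolynomial (Fin 3) R} {μ : ℕ} (hF : F.IsHomogeneous μ) (c : S) (g : Fin 3 → S) :
    F.eval₂ f (fun j => c * g j) = c ^ μ * F.eval₂ f g := by
  rw [eval₂_eq', eval₂_eq', Finset.mul_sum]
  refine Finset.sum_congr rfl fun d hd => ?_
  have h1 : d.degree = μ := by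
    rw [Finsupp.degree_eq_weight_one]
    exact hF (mem_support_iff.1 hd)
  rw [Finset.prod_congr rfl (fun j _ => mul_pow c (g j) (d j)), Finset.prod_mul_distrib,
    Finset.prod_pow_eq_pow_sum, ← Finsupp.degree_eq_sum, h1]
  ring

theorem ordLe_blI {k k' : Type u} [Field k] [Field k'] [IsAlgClosed k'] [Algebra k k'] (j₀ : Fin 3)
    (lam : Fin 3 → k') {I : Ideal (MvPolynomial (Fin 3) k)} {μ : ℕ} (h : OrdAt0 I μ) :
    OrdLe (blI j₀ lam I μ) μ := by
  classical
  intro hc
  have hinf : Infinite k' := IsAlgClosed.instInfinite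
  obtain ⟨P, hP, hP'⟩ := Set.not_subset.1 h.2
  obtain ⟨Q, hQ⟩ := bl_dvd j₀ lam (h.1 hP)
  have hQm := hc (Ideal.subset_span ⟨P, hP, hQ⟩)
  -- the extension of scalars of `P`
  have hinj : Function.Injective (algebraMap k k') := (algebraMap k k').injective
  set R : MvPolynomial (Fin 3) k' := map (algebraMap k k') P with hR
  have hsupp : R.support = P.support := support_map_of_injective P hinj
  have hbl : bl j₀ lam P = bl j₀ lam R := by
    rw [hR, bl, bl, aeval_def, aeval_def, eval₂_map]
    congr 1
  have hRμ : ∀ d ∈ R.support, μ ≤ d.degree := by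
    intro d hd
    rw [hsupp] at hd
    exact (mem_pow_idealOfVars_iff μ P).1 (h.1 hP) d hd
  set F := homogeneousComponent μ R with hF
  have hFh : F.IsHomogeneous μ := homogeneousComponent_isHomogeneous μ R
  have hF0 : F ≠ 0 := by
    intro h0
    apply hP'
    refine (mem_pow_idealOfVars_iff (μ + 1) P).2 fun d hd => ?_
    rw [← hsupp] at hd
    have h1 := hRμ d hd
    rcases Nat.eq_or_lt_of_le h1 with h2 | h2
    · exfalso
      have h3 : coeff d F = coeff d R := by
        rw [hF, coeff_homogeneousComponent, if_pos h2.symm]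
      rw [h0, coeff_zero] at h3
      exact mem_support_iff.1 hd h3.symm
    · exact h2
  have hrest : R - F ∈ (Ideal.span (Set.range X) : Ideal (MvPolynomial (Fin 3) k')) ^ (μ + 1) := by
    refine (mem_pow_idealOfVars_iff (μ + 1) _).2 fun d hd => ?_
    rw [mem_support_iff, coeff_sub, hF, coeff_homogeneousComponent] at hd
    by_cases h1 : d.degree = μ
    · rw [if_pos h1, sub_self] at hd; exact absurd rfl hd
    · rw [if_neg h1, sub_zero] at hd
      have := hRμ d (mem_support_iff.2 hd)
      omega
  obtain ⟨R', hR'⟩ := bl_dvd j₀ lam hrest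
  set g : Fin 3 → MvPolynomial (Fin 3) k' := fun j => if j = j₀ then 1 else X j + C (lam j) with hg
  have hblF : bl j₀ lam F = X j₀ ^ μ * aeval g F := by
    rw [aeval_def, ← eval₂_homog _ hFh, bl, aeval_def]
    congr 1
    funext j
    simp only [hg]
    split_ifs
    · rw [mul_one]
    · rfl
  have hQ' : Q = aeval g F + X j₀ * R' := by
    have h1 : X j₀ ^ μ * Q = X j₀ ^ μ * (aeval g F + X j₀ * R') := by
      rw [← hQ, hbl, mul_add, ← hblF, ← mul_assoc, ← pow_succ, ← hR', ← map_add, add_sub_cancel]
    exact mul_left_cancel₀ (pow_ne_zero _ (X_ne_zero _)) h1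
  -- a point where `F` does not vanish
  obtain ⟨u, hu⟩ : ∃ u : Fin 3 → k', eval u (F * X j₀) ≠ 0 := by
    by_contra hcon
    push Not at hcon
    have h1 : F * X j₀ = 0 := MvPolynomial.funext fun x => by rw [hcon x, map_zero]
    rcases mul_eq_zero.1 h1 with h2 | h2
    · exact hF0 h2
    · exact X_ne_zero _ h2
  rw [map_mul, eval_X] at hu
  have hu1 : eval u F ≠ 0 := left_ne_zero_of_mul hu
  have hu2 : u j₀ ≠ 0 := right_ne_zero_of_mul hu
  set v : Fin 3 → k' := fun j => u j / u j₀ with hv
  have hv0 : v j₀ = 1 := div_self hu2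
  have hv1 : eval v F ≠ 0 := by
    intro h0
    apply hu1
    have h1 : u = fun j => u j₀ * v j := by
      funext j
      rw [hv]
      change u j = u j₀ * (u j / u j₀)
      rw [mul_div_cancel₀ _ hu2]
    rw [h1]
    change F.eval₂ (RingHom.id k') _ = 0
    rw [eval₂_homog _ hFh]
    change _ * eval v F = 0
    rw [h0, mul_zero]
  -- the line through the new centre
  let ψ : Fin 3 → Polynomial k' := fun j => if j = j₀ then 0 else Polynomial.X * Polynomial.C (v j - lam j)
  have hQψ : (Polynomial.X : Polynomial k') ^ (μ + 1) ∣ aeval ψ Q := by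
    have h1 : (Ideal.span (Set.range X) : Ideal (MvPolynomial (Fin 3) k')).map (aeval ψ) ≤
        Ideal.span {(Polynomial.X : Polynomial k')} := by
      rw [Ideal.map_span, Ideal.span_le]
      rintro _ ⟨_, ⟨j, rfl⟩, rfl⟩
      rw [SetLike.mem_coe, Ideal.mem_span_singleton, aeval_X]
      simp only [ψ]
      split_ifs
      · exact dvd_zero _
      · exact dvd_mul_right _ _
    have h2 : aeval ψ Q ∈ (Ideal.span {(Polynomial.X : Polynomial k')}) ^ (μ + 1) := by
      refine Ideal.pow_right_mono h1 (μ + 1) ?_
      rw [← Ideal.map_pow]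
      exact Ideal.mem_map_of_mem _ hQm
    rwa [Ideal.span_singleton_pow, Ideal.mem_span_singleton] at h2
  set χ : Fin 3 → Polynomial k' := fun j => if j = j₀ then 1 else
    Polynomial.X * Polynomial.C (v j - lam j) + Polynomial.C (lam j) with hχ
  have h3 : aeval ψ Q = aeval χ F := by
    rw [hQ', map_add, map_mul, aeval_X]
    simp only [ψ, if_true, zero_mul, add_zero]
    have h4 := comp_aeval_apply (R := k') (σ := Fin 3) (f := g) (aeval ψ : MvPolynomial (Fin 3) k' →ₐ[k'] Polynomial k') F
    refine h4.trans ?_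
    congr 2
    funext j
    simp only [hg, hχ]
    split_ifs with hj
    · exact map_one _
    · rw [map_add, aeval_X, algHom_C]
      simp only [ψ, if_neg hj]
      rfl
  have hdeg : (aeval χ F).natDegree ≤ μ := by
    have h4 := aeval_natDegree_le (m := μ) (n := 1) F hFh.totalDegree_le χ (by
      intro j
      simp only [hχ]
      split_ifs
      · simp
      · refine (Polynomial.natDegree_add_le _ _).trans (max_le ?_ (by simp))
        exact (Polynomial.natDegree_mul_le).trans (by simp))
    simpa using h4
  have h5 : (aeval χ F : Polynomial k') = 0 := by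
    rw [h3] at hQψ
    by_contra hne
    have := Polynomial.natDegree_le_of_dvd hQψ hne
    rw [Polynomial.natDegree_X_pow] at this
    omega
  apply hv1
  have h6 : Polynomial.eval 1 (aeval χ F : Polynomial k') = eval v F := by
    rw [← Polynomial.coe_evalRingHom, aeval_def, hom_eval₂]
    change _ = F.eval₂ (RingHom.id k') v
    congr 1
    · ext x; simp
    · funext j
      simp only [hχ]
      by_cases hj : j = j₀
      · subst hj; simp [hv0]
      · simp [hj]
  rw [← h6, h5, Polynomial.eval_zero]

end Pool.Agent.MNJ
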